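import Mathlib
import Pool.Agent.Lib.H52W.Jordan

/-!
# MP_273810_co, part III (strips) : developments of a polygon (library H52D, helper52)

Coordinates `w = x + i y`; `x` runs along the leaf.  A copy `k : ZMod N` has a unit direction `κ k`; the linear part
`Lin k e` is `w ↦ κ k * w` (`e = true`) or `w ↦ - κ k * conj w` (`e = false`): in both cases `i ↦ i κ k`.  A bounce at the
side `l` changes `(k, e)` into `(ρ l k, !e)`.
-/

namespace Pool.Agent.H52D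

open Complex Topology Filter Set Metric
open Pool.Agent.Lib.H42I (IsPolygon)
open Pool.Agent.H52W (cdet)

/-- A polygon `P` with vertices `v`, the inner sign `sg l` of each side, and a finite family of unit directions `κ` (the
copies) which is closed under the bounces `ρ l`; `δ l` is the copy perpendicular to the side `l`. -/
structure Table (n N : ℕ) where
  P : Set ℂ
  v : ZMod n → ℂ
  sg : ZMod n → ℝ
  κ : ZMod N → ℂ
  ρ : ZMod n → ZMod N → ZMod N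
  δ : ZMod n → ZMod N
  poly : IsPolygon P v
  hsg : ∀ l, sg l = 1 ∨ sg l = -1
  inner : ∀ l, ∀ q ∈ openSegment ℝ (v l) (v (l + 1)), ∃ r > 0, ∀ x ∈ ball q r,
    (x ∈ P ↔ 0 ≤ sg l * cdet (v (l + 1) - v l) (x - v l)) ∧
    (x ∈ interior P ↔ 0 < sg l * cdet (v (l + 1) - v l) (x - v l))
  norm : ∀ k, ‖κ k‖ = 1
  inj : Function.Injective κ
  ne_neg : ∀ k k', κ k ≠ - κ k'
  rho : ∀ l k, κ (ρ l k) = -((v (l + 1) - v l) / (starRingEnd ℂ) (v (l + 1) - v l) * (starRingEnd ℂ) (κ k))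
  fix : ∀ l k, ρ l k = k ↔ k = δ l
  transv : ∀ l k, cdet (v (l + 1) - v l) (κ k) ≠ 0
  conn : ∀ S : Set (ZMod N), S.Nonempty → (∀ l, ∀ k ∈ S, ρ l k ∈ S) → S = univ

variable {n N : ℕ}

namespace Table

/-- The relatively open side `l`. -/
def side (T : Table n N) (l : ZMod n) : Set ℂ := openSegment ℝ (T.v l) (T.v (l + 1))

/-- The height of `x` over the line of the side `l` (positive inside), up to a positive factor. -/
noncomputable def ht (T : Table n N) (l : ZMod n) (x : ℂ) : ℝ := T.sg l * cdet (T.v (l + 1) - T.v l) (x - T.v l)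

/-- The mirror image of `x` in the line of the side `l`. -/
noncomputable def mir (T : Table n N) (l : ZMod n) (x : ℂ) : ℂ :=
  T.v l + (T.v (l + 1) - T.v l) / (starRingEnd ℂ) (T.v (l + 1) - T.v l) * (starRingEnd ℂ) (x - T.v l)

open Classical in
/-- The plane folded along the line of the side `l` onto the inner half plane. -/
noncomputable def fold (T : Table n N) (l : ZMod n) (x : ℂ) : ℂ := if 0 ≤ T.ht l x then x else T.mir l x

/-- The linear part `(k, e)`. -/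
noncomputable def Lin (T : Table n N) (k : ZMod N) (e : Bool) (w : ℂ) : ℂ :=
  if e = true then T.κ k * w else -(T.κ k * (starRingEnd ℂ) w)

/-- `f` has at `z` the germ `(k, e)`: `f z` is an interior point and `f` is affine near `z` with the linear part `(k, e)`,
or `f z` lies in an open side `l` and `f` is this affine map followed by the folding along `l`. -/
def Is (T : Table n N) (f : ℂ → ℂ) (z : ℂ) (k : ZMod N) (e : Bool) : Prop :=
  (f z ∈ interior T.P ∧ ∀ᶠ w in 𝓝 z, f w = f z + T.Lin k e (w - z)) ∨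
  ∃ l, f z ∈ T.side l ∧ ∀ᶠ w in 𝓝 z, f w = T.fold l (f z + T.Lin k e (w - z))

def DevAt (T : Table n N) (f : ℂ → ℂ) (z : ℂ) : Prop := ∃ k e, T.Is f z k e

/-- `f` is a development on `U`. -/
def Dev (T : Table n N) (f : ℂ → ℂ) (U : Set ℂ) : Prop := ∀ z ∈ U, T.DevAt f z

/-- The horizontal leaf through `z` meets a side perpendicularly at `z`. -/
def Perp (T : Table n N) (f : ℂ → ℂ) (z : ℂ) : Prop := ∃ l e, f z ∈ T.side l ∧ T.Is f z (T.δ l) e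

/-- The start at the side `l` perpendicular to it; the imaginary axis goes to the line of the side `l`. -/
noncomputable def base (T : Table n N) (l : ZMod n) (z : ℂ) : ℂ := T.fold l (T.v l + T.κ (T.δ l) * z)

/-- The open side `l` in the coordinate `y` of `base l`. -/
def A (T : Table n N) (l : ZMod n) : Set ℝ := {y | T.v l + T.κ (T.δ l) * ⟨0, y⟩ ∈ T.side l}

/-- One variable version of `Is`. -/
def RIs (T : Table n N) (f : ℝ → ℂ) (x : ℝ) (k : ZMod N) (e : Bool) : Prop :=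
  (f x ∈ interior T.P ∧ ∀ᶠ t in 𝓝 x, f t = f x + T.Lin k e ((t - x : ℝ) : ℂ)) ∨
  ∃ l, f x ∈ T.side l ∧ ∀ᶠ t in 𝓝 x, f t = T.fold l (f x + T.Lin k e ((t - x : ℝ) : ℂ))

/-- A piece of a leaf, parametrized by length, which meets no vertex. -/
def RP (T : Table n N) (f : ℝ → ℂ) (a b : ℝ) : Prop := ∀ x ∈ Ioo a b, ∃ k e, T.RIs f x k e

def RPerp (T : Table n N) (f : ℝ → ℂ) (x : ℝ) : Prop := ∃ l e, f x ∈ T.side l ∧ T.RIs f x (T.δ l) e

/-- Property (A1): no leaf goes from a vertex to a vertex without a perpendicular hit. -/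
def A1 (T : Table n N) : Prop := ∀ (f : ℝ → ℂ) (a b : ℝ) (i j : ZMod n), a < b → T.RP f a b →
  (∀ x ∈ Ioo a b, ¬ T.RPerp f x) → Tendsto f (𝓝[>] a) (𝓝 (T.v i)) → Tendsto f (𝓝[<] b) (𝓝 (T.v j)) → False

end Table

/-- The reflection of the plane in the imaginary axis. -/
noncomputable def rx (z : ℂ) : ℂ := ⟨-z.re, z.im⟩

/-- The maximal continuation `C` of the perpendicular start at the side `l`, on the open set `Ω`. -/
structure Cont (T : Table n N) (l : ZMod n) (Ω : Set ℂ) (C : ℂ → ℂ) : Prop where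
  isOpen : IsOpen Ω
  im_mem : ∀ z ∈ Ω, z.im ∈ T.A l
  dev : T.Dev C Ω
  axis : ∀ y ∈ T.A l, (⟨0, y⟩ : ℂ) ∈ Ω
  base : ∀ y ∈ T.A l, C =ᶠ[𝓝 (⟨0, y⟩ : ℂ)] T.base l
  hconv : ∀ z ∈ Ω, ∀ t ∈ Icc (0 : ℝ) 1, (⟨t * z.re, z.im⟩ : ℂ) ∈ Ω
  symm_mem : ∀ z ∈ Ω, rx z ∈ Ω
  symm : ∀ z ∈ Ω, C (rx z) = C z
  max : ∀ y ∈ T.A l, ∀ X > 0, (∀ x ∈ Ico (0 : ℝ) X, (⟨x, y⟩ : ℂ) ∈ Ω) → (⟨X, y⟩ : ℂ) ∉ Ω →
    ∃ i, Tendsto (fun x : ℝ => C ⟨x, y⟩) (𝓝[<] X) (𝓝 (T.v i))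
  ext_mem : ∀ (U : Set ℂ) (f : ℂ → ℂ) (x y : ℝ), IsOpen U → y ∈ T.A l → segment ℝ (⟨0, y⟩ : ℂ) ⟨x, y⟩ ⊆ U →
    T.Dev f U → f =ᶠ[𝓝 (⟨0, y⟩ : ℂ)] T.base l → (⟨x, y⟩ : ℂ) ∈ Ω
  ext_eq : ∀ (U : Set ℂ) (f : ℂ → ℂ) (x y : ℝ), IsOpen U → y ∈ T.A l → segment ℝ (⟨0, y⟩ : ℂ) ⟨x, y⟩ ⊆ U →
    T.Dev f U → f =ᶠ[𝓝 (⟨0, y⟩ : ℂ)] T.base l → C =ᶠ[𝓝 (⟨x, y⟩ : ℂ)] f

/-- The leaf of `y` stops at a vertex before it hits a side perpendicularly. -/
def Exc (T : Table n N) (l : ZMod n) (Ω : Set ℂ) (C : ℂ → ℂ) : Set ℝ :=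
  {y | y ∈ T.A l ∧ ∃ X > 0, (∀ x ∈ Ico (0 : ℝ) X, (⟨x, y⟩ : ℂ) ∈ Ω) ∧ (⟨X, y⟩ : ℂ) ∉ Ω ∧
    ∀ x ∈ Ioo (0 : ℝ) X, ¬ T.Perp C ⟨x, y⟩}

/-- A strip of the side `l` over the interval `(y₀, y₁)`: all its leaves end perpendicularly at the time `X`. -/
structure Strip (T : Table n N) (l : ZMod n) (Ω : Set ℂ) (C : ℂ → ℂ) (y₀ y₁ X : ℝ) : Prop where
  lt : y₀ < y₁
  pos : 0 < X
  sub : Ioo y₀ y₁ ⊆ T.A l
  mem : ∀ y ∈ Ioo y₀ y₁, ∀ x ∈ Icc 0 X, (⟨x, y⟩ : ℂ) ∈ Ω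
  perp : ∀ y ∈ Ioo y₀ y₁, T.Perp C ⟨X, y⟩
  not_perp : ∀ y ∈ Ioo y₀ y₁, ∀ x ∈ Ioo 0 X, ¬ T.Perp C ⟨x, y⟩

end Pool.Agent.H52D
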