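import Pool.Agent.Lib.H52D.K01A

/-! # K01 : algebra of the linear parts and of the mirror maps (library H52D) -/

namespace Pool.Agent.H52D

open Complex Topology Filter Set Metric
open Pool.Agent.H52W (cdet)

variable {n N : ℕ}

theorem K01_mir_mir (T : Table n N) (l : ZMod n) (x : ℂ) : T.mir l (T.mir l x) = x := by
  sorry

theorem K01_ht_mir (T : Table n N) (l : ZMod n) (x : ℂ) : T.ht l (T.mir l x) = -T.ht l x := by
  sorry

/-- Points of height `0` are fixed by the mirror map. -/
theorem K01_mir_self (T : Table n N) (l : ZMod n) (x : ℂ) (h : T.ht l x = 0) : T.mir l x = x := by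
  sorry

theorem K01_fold_nonneg (T : Table n N) (l : ZMod n) (x : ℂ) (h : 0 ≤ T.ht l x) : T.fold l x = x := by
  sorry

theorem K01_fold_nonpos (T : Table n N) (l : ZMod n) (x : ℂ) (h : T.ht l x ≤ 0) : T.fold l x = T.mir l x := by
  sorry

theorem K01_fold_mir (T : Table n N) (l : ZMod n) (x : ℂ) : T.fold l (T.mir l x) = T.fold l x := by
  sorry

theorem K01_ht_fold (T : Table n N) (l : ZMod n) (x : ℂ) : T.ht l (T.fold l x) = |T.ht l x| := by
  sorry

theorem K01_mir_dist (T : Table n N) (l : ZMod n) (x y : ℂ) : ‖T.mir l x - T.mir l y‖ = ‖x - y‖ := by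
  sorry

theorem K01_fold_dist (T : Table n N) (l : ZMod n) (x y : ℂ) : ‖T.fold l x - T.fold l y‖ ≤ ‖x - y‖ := by
  sorry

theorem K01_fold_continuous (T : Table n N) (l : ZMod n) : Continuous (T.fold l) := by
  sorry

theorem K01_ht_continuous (T : Table n N) (l : ZMod n) : Continuous (T.ht l) := by
  sorry

/-- Mirror map and bounce: `(k, e) → (ρ l k, !e)`. -/
theorem K01_mir_Lin (T : Table n N) (l : ZMod n) (p : ℂ) (hp : T.ht l p = 0) (k : ZMod N) (e : Bool) (w : ℂ) :
    T.mir l (p + T.Lin k e w) = p + T.Lin (T.ρ l k) (!e) w := by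
  sorry

theorem K01_fold_Lin (T : Table n N) (l : ZMod n) (p : ℂ) (hp : T.ht l p = 0) (k : ZMod N) (e : Bool) (w : ℂ) :
    T.fold l (p + T.Lin (T.ρ l k) (!e) w) = T.fold l (p + T.Lin k e w) := by
  sorry

theorem K01_rho_rho (T : Table n N) (l : ZMod n) (k : ZMod N) : T.ρ l (T.ρ l k) = k := by
  sorry

/-- The height along a line through a point of height `0`. -/
theorem K01_ht_add (T : Table n N) (l : ZMod n) (p u : ℂ) (t : ℝ) :
    T.ht l (p + (t : ℂ) * u) = T.ht l p + t * (T.sg l * cdet (T.v (l + 1) - T.v l) u) := by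
  sorry

end Pool.Agent.H52D
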