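import Pool.Agent.Lib.H52D.K01B

/-! # K01 : algebra of the linear parts and of the mirror maps (library H52D) -/

namespace Pool.Agent.H52D

open Complex Topology Filter Set Metric
open Pool.Agent.H52W (cdet)

variable {n N : ℕ}

theorem K01_side_ht (T : Table n N) (l : ZMod n) (p : ℂ) (hp : p ∈ T.side l) : T.ht l p = 0 := by
  sorry

/-- A point of the line of a side near a point of the open side is in the open side. -/
theorem K01_side_open (T : Table n N) (l : ZMod n) (p : ℂ) (hp : p ∈ T.side l) :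
    ∀ᶠ x in 𝓝 p, (T.ht l x = 0 → x ∈ T.side l) := by
  sorry

/-- Open sides: they are in `P`, not in the interior, contain no vertex, and are disjoint. -/
theorem K01_side_mem (T : Table n N) (l : ZMod n) (p : ℂ) (hp : p ∈ T.side l) :
    p ∈ T.P ∧ p ∉ interior T.P ∧ p ∉ range T.v ∧ ∀ l', p ∈ T.side l' → l' = l := by
  sorry

/-- A point of `P` is an interior point, a vertex or a point of an open side. -/
theorem K01_cases (T : Table n N) (p : ℂ) (hp : p ∈ T.P) :
    p ∈ interior T.P ∨ (∃ i, p = T.v i) ∨ ∃ l, p ∈ T.side l := by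
  sorry

/-- Near a point of an open side the folding goes into `P`. -/
theorem K01_fold_mem (T : Table n N) (l : ZMod n) (p : ℂ) (hp : p ∈ T.side l) :
    ∃ r > 0, (∀ x ∈ ball p r, (T.ht l x = 0 → x ∈ T.side l) ∧ (x ∈ T.P ↔ 0 ≤ T.ht l x) ∧
      (x ∈ interior T.P ↔ 0 < T.ht l x)) ∧ ∀ x ∈ ball p r, T.fold l x ∈ ball p r := by
  sorry

end Pool.Agent.H52D
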