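import Pool.Agent.Lib.H52D.K01A
import Pool.Agent.Lib.H52D.K01B
import Pool.Agent.Lib.H52D.K01C

/-! # K01 : algebra of the linear parts and of the mirror maps (library H52D) -/
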