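import Pool.Agent.Lib.H52D.Base

/-! # K01 : algebra of the linear parts and of the mirror maps (library H52D) -/

namespace Pool.Agent.H52D

open Complex Topology Filter Set Metric
open Pool.Agent.H52W (cdet)

variable {n N : ℕ}

private theorem k01a_true (T : Table n N) (k : ZMod N) (w : ℂ) : T.Lin k true w = T.κ k * w := by
  simp [Table.Lin]

private theorem k01a_false (T : Table n N) (k : ZMod N) (w : ℂ) :
    T.Lin k false w = -(T.κ k * (starRingEnd ℂ) w) := by
  simp [Table.Lin]

private theorem k01a_ne (T : Table n N) (k : ZMod N) : T.κ k ≠ 0 := by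
  intro h
  have := T.norm k
  rw [h, norm_zero] at this
  norm_num at this

theorem K01_norm (T : Table n N) (k : ZMod N) (e : Bool) (w : ℂ) : ‖T.Lin k e w‖ = ‖w‖ := by
  cases e
  · rw [k01a_false, norm_neg, norm_mul, T.norm, one_mul, RCLike.norm_conj]
  · rw [k01a_true, norm_mul, T.norm, one_mul]

theorem K01_add (T : Table n N) (k : ZMod N) (e : Bool) (w w' : ℂ) :
    T.Lin k e (w + w') = T.Lin k e w + T.Lin k e w' := by
  cases e
  · simp only [k01a_false, map_add]
    ring
  · simp only [k01a_true]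
    ring

theorem K01_sub (T : Table n N) (k : ZMod N) (e : Bool) (w w' : ℂ) :
    T.Lin k e (w - w') = T.Lin k e w - T.Lin k e w' := by
  cases e
  · simp only [k01a_false, map_sub]
    ring
  · simp only [k01a_true]
    ring

theorem K01_neg (T : Table n N) (k : ZMod N) (e : Bool) (w : ℂ) :
    T.Lin k e (-w) = -T.Lin k e w := by
  cases e
  · simp only [k01a_false, map_neg]
    ring
  · simp only [k01a_true]
    ring

theorem K01_zero (T : Table n N) (k : ZMod N) (e : Bool) : T.Lin k e 0 = 0 := by
  cases e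
  · simp only [k01a_false, map_zero]
    ring
  · simp only [k01a_true]
    ring

theorem K01_smul (T : Table n N) (k : ZMod N) (e : Bool) (r : ℝ) (w : ℂ) :
    T.Lin k e ((r : ℂ) * w) = (r : ℂ) * T.Lin k e w := by
  cases e
  · simp only [k01a_false, map_mul, Complex.conj_ofReal]
    ring
  · simp only [k01a_true]
    ring

theorem K01_im (T : Table n N) (k : ZMod N) (e : Bool) (y : ℝ) :
    T.Lin k e ⟨0, y⟩ = T.κ k * ⟨0, y⟩ := by
  cases e
  · have h : (starRingEnd ℂ) (⟨0, y⟩ : ℂ) = -⟨0, y⟩ := by
      apply Complex.ext <;> simp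
    rw [k01a_false, h]
    ring
  · rw [k01a_true]

theorem K01_rx (T : Table n N) (k : ZMod N) (e : Bool) (w : ℂ) : T.Lin k e (rx w) = T.Lin k (!e) w := by
  have h : rx w = -(starRingEnd ℂ) w := by
    apply Complex.ext <;> simp [rx]
  cases e
  · simp only [Bool.not_false]
    rw [k01a_false, k01a_true, h, map_neg, Complex.conj_conj]
    ring
  · simp only [Bool.not_true]
    rw [k01a_false, k01a_true, h]
    ring

/-- The linear part is surjective. -/
theorem K01_surj (T : Table n N) (k : ZMod N) (e : Bool) (u : ℂ) : ∃ w, T.Lin k e w = u := by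
  have hk := k01a_ne T k
  cases e
  · refine ⟨(starRingEnd ℂ) (-(u / T.κ k)), ?_⟩
    rw [k01a_false, Complex.conj_conj]
    field_simp
  · refine ⟨u / T.κ k, ?_⟩
    rw [k01a_true]
    field_simp

theorem K01_continuous (T : Table n N) (k : ZMod N) (e : Bool) : Continuous (T.Lin k e) := by
  cases e
  · have h : T.Lin k false = fun w => -(T.κ k * (starRingEnd ℂ) w) := funext (k01a_false T k)
    rw [h]
    exact (continuous_const.mul Complex.continuous_conj).neg
  · have h : T.Lin k true = fun w => T.κ k * w := funext (k01a_true T k)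
    rw [h]
    exact continuous_const.mul continuous_id

theorem K01_one_inj (T : Table n N) (k k' : ZMod N) (e e' : Bool) (h : T.Lin k e 1 = T.Lin k' e' 1) :
    k = k' ∧ e = e' := by
  cases e <;> cases e'
  · rw [k01a_false, k01a_false, map_one, mul_one, mul_one, neg_inj] at h
    exact ⟨T.inj h, rfl⟩
  · rw [k01a_false, k01a_true, map_one, mul_one, mul_one] at h
    exact absurd h.symm (T.ne_neg k' k)
  · rw [k01a_false, k01a_true, map_one, mul_one, mul_one] at h
    exact absurd h (T.ne_neg k k')
  · rw [k01a_true, k01a_true, mul_one, mul_one] at h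
    exact ⟨T.inj h, rfl⟩

/-- Two affine maps which agree on a nonempty open set have the same linear part. -/
theorem K01_open_inj (T : Table n N) (k k' : ZMod N) (e e' : Bool) (w₀ c : ℂ)
    (h : ∀ᶠ w in 𝓝 w₀, T.Lin k e w = T.Lin k' e' w + c) : k = k' ∧ e = e' ∧ c = 0 := by
  have h0 := h.self_of_nhds
  obtain ⟨ε, hε, hb⟩ := Metric.eventually_nhds_iff.mp h
  have h1 := hb (y := w₀ + ((ε / 2 : ℝ) : ℂ) * 1) (by
    rw [dist_eq_norm, add_sub_cancel_left, mul_one, Complex.norm_real, Real.norm_eq_abs,
      abs_of_pos (half_pos hε)]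
    exact half_lt_self hε)
  rw [K01_add, K01_add, K01_smul, K01_smul, h0] at h1
  have h2 : ((ε / 2 : ℝ) : ℂ) * T.Lin k e 1 = ((ε / 2 : ℝ) : ℂ) * T.Lin k' e' 1 := by
    linear_combination h1
  have h3 : ((ε / 2 : ℝ) : ℂ) ≠ 0 := by
    exact_mod_cast (half_pos hε).ne'
  obtain ⟨hk, he⟩ := K01_one_inj T k k' e e' (mul_left_cancel₀ h3 h2)
  refine ⟨hk, he, ?_⟩
  rw [hk, he] at h0
  linear_combination -h0

end Pool.Agent.H52D
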