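import Pool.Agent.Lib.H52D.K02A
import Pool.Agent.Lib.H52D.K01

/-! # K02 : germs (library H52D) -/

namespace Pool.Agent.H52D

open Complex Topology Filter Set Metric
open Pool.Agent.H52W (cdet)

variable {n N : ℕ}

private theorem K02B_tend (z : ℂ) : Tendsto (fun w => z + w) (𝓝 0) (𝓝 z) := by
  have h : Continuous fun w : ℂ => z + w := continuous_const.add continuous_id
  have h1 := h.tendsto 0
  rwa [add_zero] at h1

private theorem K02B_rx_zero : rx 0 = 0 := by
  simp [rx, Complex.ext_iff]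

private theorem K02B_rx_continuous : Continuous rx := by
  have h : rx = fun w => -(starRingEnd ℂ) w := by
    funext w
    simp [rx, Complex.ext_iff]
  rw [h]
  exact Complex.continuous_conj.neg

private theorem K02B_aff_continuous (T : Table n N) (p z : ℂ) (k : ZMod N) (e : Bool) :
    Continuous fun w => p + T.Lin k e (w - z) :=
  continuous_const.add ((K01_continuous T k e).comp (continuous_id.sub continuous_const))

private theorem K02B_aff_aff (T : Table n N) (p z w u : ℂ) (k : ZMod N) (e : Bool) :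
    p + T.Lin k e (u - z) = p + T.Lin k e (w - z) + T.Lin k e (u - w) := by
  rw [add_assoc, ← K01_add]
  congr 2
  ring

/-- Germs with the same value and the same `(k, e)` are equal. -/
theorem K02_eq (T : Table n N) {f g : ℂ → ℂ} {z : ℂ} {k : ZMod N} {e : Bool} (h : T.Is f z k e)
    (h' : T.Is g z k e) (hv : f z = g z) : f =ᶠ[𝓝 z] g := by
  rcases K02_cases T ⟨k, e, h⟩ with hp | ⟨l, hp⟩
  · have h1 := K02_int T h hp
    have h2 := K02_int T h' (hv ▸ hp)
    filter_upwards [h1, h2] with w e1 e2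
    rw [e1, e2, hv]
  · have h1 := K02_side T h hp
    have h2 := K02_side T h' (hv ▸ hp)
    filter_upwards [h1, h2] with w e1 e2
    rw [e1, e2, hv]

/-- The same for two different points. -/
theorem K02_eq_shift (T : Table n N) {f g : ℂ → ℂ} {z z' : ℂ} {k : ZMod N} {e : Bool} (h : T.Is f z k e)
    (h' : T.Is g z' k e) (hv : f z = g z') : (fun w => f (z + w)) =ᶠ[𝓝 0] (fun w => g (z' + w)) := by
  have t1 := K02B_tend z
  have t2 := K02B_tend z'
  rcases K02_cases T ⟨k, e, h⟩ with hp | ⟨l, hp⟩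
  · filter_upwards [t1.eventually (K02_int T h hp), t2.eventually (K02_int T h' (hv ▸ hp))] with w e1 e2
    rw [e1, e2, hv, add_sub_cancel_left, add_sub_cancel_left]
  · filter_upwards [t1.eventually (K02_side T h hp), t2.eventually (K02_side T h' (hv ▸ hp))] with w e1 e2
    rw [e1, e2, hv, add_sub_cancel_left, add_sub_cancel_left]

/-- The same with opposite `e`. -/
theorem K02_eq_rx (T : Table n N) {f g : ℂ → ℂ} {z z' : ℂ} {k : ZMod N} {e : Bool} (h : T.Is f z k e)
    (h' : T.Is g z' k (!e)) (hv : f z = g z') :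
    (fun w => f (z + w)) =ᶠ[𝓝 0] (fun w => g (z' + rx w)) := by
  have t1 := K02B_tend z
  have t2 : Tendsto (fun w => z' + rx w) (𝓝 0) (𝓝 z') := by
    have h1 : Tendsto rx (𝓝 0) (𝓝 0) := by
      have h2 := K02B_rx_continuous.tendsto 0
      rwa [K02B_rx_zero] at h2
    exact (K02B_tend z').comp h1
  have hL : ∀ w, T.Lin k (!e) (rx w) = T.Lin k e w := by
    intro w
    rw [K01_rx, Bool.not_not]
  rcases K02_cases T ⟨k, e, h⟩ with hp | ⟨l, hp⟩
  · filter_upwards [t1.eventually (K02_int T h hp), t2.eventually (K02_int T h' (hv ▸ hp))] with w e1 e2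
    rw [e1, e2, hv, add_sub_cancel_left, add_sub_cancel_left, hL]
  · filter_upwards [t1.eventually (K02_side T h hp), t2.eventually (K02_side T h' (hv ▸ hp))] with w e1 e2
    rw [e1, e2, hv, add_sub_cancel_left, add_sub_cancel_left, hL]

theorem K02_continuousAt (T : Table n N) {f : ℂ → ℂ} {z : ℂ} (h : T.DevAt f z) : ContinuousAt f z := by
  obtain ⟨k, e, h⟩ := h
  have hc := K02B_aff_continuous T (f z) z k e
  rcases K02_cases T ⟨k, e, h⟩ with hp | ⟨l, hp⟩
  · exact hc.continuousAt.congr (EventuallyEq.symm (K02_int T h hp))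
  · exact ((K01_fold_continuous T l).comp hc).continuousAt.congr (EventuallyEq.symm (K02_side T h hp))

/-- Near an interior value the germ is the same at the neighbouring points. -/
theorem K02_near_int (T : Table n N) {f : ℂ → ℂ} {z : ℂ} {k : ZMod N} {e : Bool} (h : T.Is f z k e)
    (hp : f z ∈ interior T.P) : ∀ᶠ w in 𝓝 z, f w ∈ interior T.P ∧ T.Is f w k e := by
  have h1 := K02_int T h hp
  have hc : ContinuousAt f z := K02_continuousAt T ⟨k, e, h⟩
  have h2 : ∀ᶠ w in 𝓝 z, f w ∈ interior T.P := hc.eventually (isOpen_interior.mem_nhds hp)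
  filter_upwards [h2, eventually_eventually_nhds.2 h1] with w hw hw2
  refine ⟨hw, Or.inl ⟨hw, ?_⟩⟩
  have hw3 := hw2.self_of_nhds
  filter_upwards [hw2] with u hu
  rw [hu, hw3, K02B_aff_aff]

/-- Near a value on a side: the germ is `(k, e)` where the affine map is on the inner side, and `(ρ l k, !e)` on the
outer side. -/
theorem K02_near_side (T : Table n N) {f : ℂ → ℂ} {z : ℂ} {k : ZMod N} {e : Bool} (h : T.Is f z k e)
    {l : ZMod n} (hp : f z ∈ T.side l) : ∀ᶠ w in 𝓝 z,
      (0 < T.ht l (f z + T.Lin k e (w - z)) → f w ∈ interior T.P ∧ T.Is f w k e) ∧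
      (T.ht l (f z + T.Lin k e (w - z)) < 0 → f w ∈ interior T.P ∧ T.Is f w (T.ρ l k) (!e)) ∧
      (T.ht l (f z + T.Lin k e (w - z)) = 0 → f w ∈ T.side l ∧ T.Is f w k e) := by
  have h1 := K02_side T h hp
  have hz : T.ht l (f z) = 0 := K01_side_ht T l (f z) hp
  have hc := K02B_aff_continuous T (f z) z k e
  obtain ⟨r, hr, hball, hfold⟩ := K01_fold_mem T l (f z) hp
  have hb : ∀ᶠ w in 𝓝 z, f z + T.Lin k e (w - z) ∈ ball (f z) r := by
    refine hc.continuousAt.eventually ?_
    beta_reduce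
    rw [sub_self, K01_zero, add_zero]
    exact ball_mem_nhds _ hr
  have hht : Continuous fun w => T.ht l (f z + T.Lin k e (w - z)) := (K01_ht_continuous T l).comp hc
  filter_upwards [hb, eventually_eventually_nhds.2 h1] with w hw hw2
  have hw3 := hw2.self_of_nhds
  refine ⟨fun hpos => ?_, fun hneg => ?_, fun h0 => ?_⟩
  · rw [K01_fold_nonneg T l _ hpos.le] at hw3
    have hin : f w ∈ interior T.P := by
      rw [hw3]
      exact ((hball _ hw).2.2).2 hpos
    refine ⟨hin, Or.inl ⟨hin, ?_⟩⟩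
    have ho : ∀ᶠ u in 𝓝 w, 0 < T.ht l (f z + T.Lin k e (u - z)) :=
      hht.continuousAt.eventually (lt_mem_nhds hpos)
    filter_upwards [ho, hw2] with u hu hu2
    rw [hu2, K01_fold_nonneg T l _ hu.le, hw3, K02B_aff_aff]
  · rw [K01_fold_nonpos T l _ hneg.le] at hw3
    have hin : f w ∈ interior T.P := by
      have h2 := hfold _ hw
      rw [K01_fold_nonpos T l _ hneg.le] at h2
      rw [hw3]
      refine ((hball _ h2).2.2).2 ?_
      rw [K01_ht_mir]
      linarith
    refine ⟨hin, Or.inl ⟨hin, ?_⟩⟩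
    have ho : ∀ᶠ u in 𝓝 w, T.ht l (f z + T.Lin k e (u - z)) < 0 :=
      hht.continuousAt.eventually (gt_mem_nhds hneg)
    filter_upwards [ho, hw2] with u hu hu2
    rw [hu2, K01_fold_nonpos T l _ hu.le, hw3, K01_mir_Lin T l _ hz, K01_mir_Lin T l _ hz, K02B_aff_aff]
  · rw [K01_fold_nonneg T l _ h0.ge] at hw3
    have hs : f w ∈ T.side l := by
      rw [hw3]
      exact (hball _ hw).1 h0
    refine ⟨hs, Or.inr ⟨l, hs, ?_⟩⟩
    filter_upwards [hw2] with u hu2
    rw [hu2, hw3, K02B_aff_aff]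

theorem K02_near (T : Table n N) {f : ℂ → ℂ} {z : ℂ} (h : T.DevAt f z) : ∀ᶠ w in 𝓝 z, T.DevAt f w := by
  obtain ⟨k, e, h⟩ := h
  rcases K02_cases T ⟨k, e, h⟩ with hp | ⟨l, hp⟩
  · filter_upwards [K02_near_int T h hp] with w hw
    exact ⟨k, e, hw.2⟩
  · filter_upwards [K02_near_side T h hp] with w hw
    rcases lt_trichotomy (T.ht l (f z + T.Lin k e (w - z))) 0 with h1 | h1 | h1
    · exact ⟨_, _, (hw.2.1 h1).2⟩
    · exact ⟨_, _, (hw.2.2 h1).2⟩
    · exact ⟨_, _, (hw.1 h1).2⟩

/-- The standard germs exist and are developments near the point. -/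
theorem K02_exists (T : Table n N) (p : ℂ) (hp : p ∈ T.P) (hv : p ∉ range T.v) (k : ZMod N) (e : Bool) (z : ℂ) :
    ∃ f : ℂ → ℂ, f z = p ∧ T.Is f z k e := by
  rcases K01_cases T p hp with hi | ⟨i, hi⟩ | ⟨l, hl⟩
  · have h0 : p + T.Lin k e (z - z) = p := by rw [sub_self, K01_zero, add_zero]
    refine ⟨fun w => p + T.Lin k e (w - z), h0, Or.inl ⟨?_, ?_⟩⟩
    · simp only [h0]
      exact hi
    · simp only [h0]
      exact Eventually.of_forall fun w => trivial
  · exact absurd ⟨i, hi.symm⟩ hv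
  · have h0 : T.fold l (p + T.Lin k e (z - z)) = p := by
      rw [sub_self, K01_zero, add_zero, K01_fold_nonneg T l p (K01_side_ht T l p hl).ge]
    refine ⟨fun w => T.fold l (p + T.Lin k e (w - z)), h0, Or.inr ⟨l, ?_, ?_⟩⟩
    · simp only [h0]
      exact hl
    · simp only [h0]
      exact Eventually.of_forall fun w => trivial

end Pool.Agent.H52D
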