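import Pool.Agent.Lib.H52D.K02A
import Pool.Agent.Lib.H52D.K02B

/-! # K02 : germs (library H52D) -/
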