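import Pool.Agent.Lib.H52D.K01

/-! # K02 : germs (library H52D) -/

namespace Pool.Agent.H52D

open Complex Topology Filter Set Metric
open Pool.Agent.H52W (cdet)

variable {n N : ℕ}

theorem K02_mem (T : Table n N) {f : ℂ → ℂ} {z : ℂ} (h : T.DevAt f z) :
    f z ∈ T.P ∧ f z ∉ range T.v := by
  obtain ⟨k, e, h | ⟨l, hl, _⟩⟩ := h
  · refine ⟨interior_subset h.1, ?_⟩
    rintro ⟨i, hi⟩
    have h1 : T.v i ∈ frontier T.P := by
      rw [T.poly.frontier_eq]
      exact mem_iUnion.2 ⟨i, left_mem_segment ℝ _ _⟩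
    rw [hi] at h1
    exact h1.2 h.1
  · have h1 := K01_side_mem T l (f z) hl
    exact ⟨h1.1, h1.2.2.1⟩

theorem K02_cases (T : Table n N) {f : ℂ → ℂ} {z : ℂ} (h : T.DevAt f z) :
    f z ∈ interior T.P ∨ ∃ l, f z ∈ T.side l := by
  obtain ⟨k, e, h | ⟨l, hl, _⟩⟩ := h
  · exact Or.inl h.1
  · exact Or.inr ⟨l, hl⟩

theorem K02_int (T : Table n N) {f : ℂ → ℂ} {z : ℂ} {k : ZMod N} {e : Bool} (h : T.Is f z k e)
    (hp : f z ∈ interior T.P) : ∀ᶠ w in 𝓝 z, f w = f z + T.Lin k e (w - z) := by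
  rcases h with h | ⟨l, hl, _⟩
  · exact h.2
  · exact absurd hp (K01_side_mem T l (f z) hl).2.1

theorem K02_side (T : Table n N) {f : ℂ → ℂ} {z : ℂ} {k : ZMod N} {e : Bool} (h : T.Is f z k e)
    {l : ZMod n} (hp : f z ∈ T.side l) : ∀ᶠ w in 𝓝 z, f w = T.fold l (f z + T.Lin k e (w - z)) := by
  rcases h with h | ⟨l', hl', h⟩
  · exact absurd h.1 (K01_side_mem T l (f z) hp).2.1
  · have h1 := (K01_side_mem T l (f z) hp).2.2.2 l' hl'
    rw [← h1]
    exact h

theorem K02_other (T : Table n N) {f : ℂ → ℂ} {z : ℂ} {k : ZMod N} {e : Bool} (h : T.Is f z k e)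
    {l : ZMod n} (hp : f z ∈ T.side l) : T.Is f z (T.ρ l k) (!e) := by
  refine Or.inr ⟨l, hp, ?_⟩
  filter_upwards [K02_side T h hp] with w hw
  rw [K01_fold_Lin T l (f z) (K01_side_ht T l _ hp)]
  exact hw

theorem K02_unique_int (T : Table n N) {f : ℂ → ℂ} {z : ℂ} {k k' : ZMod N} {e e' : Bool}
    (hp : f z ∈ interior T.P) (h : T.Is f z k e) (h' : T.Is f z k' e') : k = k' ∧ e = e' := by
  have h1 : ∀ᶠ w in 𝓝 z, T.Lin k e w = T.Lin k' e' w + (T.Lin k e z - T.Lin k' e' z) := by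
    filter_upwards [K02_int T h hp, K02_int T h' hp] with w g1 g2
    rw [g1] at g2
    have g3 := add_left_cancel g2
    rw [K01_sub, K01_sub] at g3
    linear_combination g3
  have h2 := K01_open_inj T k k' e e' z _ h1
  exact ⟨h2.1, h2.2.1⟩

private theorem k02a_one (T : Table n N) (l : ZMod n) (k : ZMod N) (e : Bool) :
    cdet (T.v (l + 1) - T.v l) (T.Lin k e 1) ≠ 0 := by
  have h := T.transv l k
  cases e
  · have h1 : T.Lin k false 1 = -(T.κ k) := by
      simp [Table.Lin]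
    rw [h1]
    have h2 : cdet (T.v (l + 1) - T.v l) (-(T.κ k)) = -cdet (T.v (l + 1) - T.v l) (T.κ k) := by
      simp only [cdet, Complex.neg_re, Complex.neg_im]
      ring
    rw [h2]
    exact neg_ne_zero.2 h
  · have h1 : T.Lin k true 1 = T.κ k := by
      simp [Table.Lin]
    rw [h1]
    exact h

private theorem k02a_ht (T : Table n N) (l : ZMod n) (p : ℂ) (hp : T.ht l p = 0) (k : ZMod N)
    (e : Bool) (t : ℝ) (ht : t ≠ 0) : T.ht l (p + T.Lin k e (t : ℂ)) ≠ 0 := by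
  have h1 : T.Lin k e (t : ℂ) = (t : ℂ) * T.Lin k e 1 := by
    have h2 := K01_smul T k e t 1
    rwa [mul_one] at h2
  rw [h1, K01_ht_add, hp, zero_add]
  have hsg : T.sg l ≠ 0 := by
    rcases T.hsg l with h | h <;> rw [h] <;> norm_num
  exact mul_ne_zero ht (mul_ne_zero hsg (k02a_one T l k e))

private theorem k02a_fold (T : Table n N) (l : ZMod n) (p : ℂ) (hp : T.ht l p = 0) (k : ZMod N)
    (e : Bool) (z w₁ : ℂ) (h : T.ht l (p + T.Lin k e (w₁ - z)) ≠ 0) :
    ∃ (j : ZMod N) (a : Bool), ((j = k ∧ a = e) ∨ (j = T.ρ l k ∧ a = !e)) ∧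
      ∀ᶠ w in 𝓝 w₁, T.fold l (p + T.Lin k e (w - z)) = p + T.Lin j a (w - z) := by
  have hc : Continuous fun w : ℂ => T.ht l (p + T.Lin k e (w - z)) :=
    (K01_ht_continuous T l).comp (continuous_const.add
      ((K01_continuous T k e).comp (continuous_id.sub continuous_const)))
  rcases lt_or_gt_of_ne h with h1 | h1
  · refine ⟨T.ρ l k, !e, Or.inr ⟨rfl, rfl⟩, ?_⟩
    filter_upwards [hc.continuousAt.eventually_lt continuousAt_const h1] with w hw
    rw [K01_fold_nonpos T l _ hw.le, K01_mir_Lin T l p hp]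
  · refine ⟨k, e, Or.inl ⟨rfl, rfl⟩, ?_⟩
    filter_upwards [continuousAt_const.eventually_lt hc.continuousAt h1] with w hw
    rw [K01_fold_nonneg T l _ hw.le]

theorem K02_unique_side (T : Table n N) {f : ℂ → ℂ} {z : ℂ} {k k' : ZMod N} {e e' : Bool} {l : ZMod n}
    (hp : f z ∈ T.side l) (h : T.Is f z k e) (h' : T.Is f z k' e') :
    (k' = k ∧ e' = e) ∨ (k' = T.ρ l k ∧ e' = !e) := by
  have hp0 := K01_side_ht T l _ hp
  have h1 : ∀ᶠ w in 𝓝 z, T.fold l (f z + T.Lin k e (w - z)) =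
      T.fold l (f z + T.Lin k' e' (w - z)) := by
    filter_upwards [K02_side T h hp, K02_side T h' hp] with w g1 g2
    rw [← g1, ← g2]
  have h2 := eventually_eventually_nhds.2 h1
  have h3 : Tendsto (fun t : ℝ => z + (t : ℂ)) (𝓝[≠] 0) (𝓝 z) := by
    have h4 : Continuous fun t : ℝ => z + (t : ℂ) :=
      continuous_const.add Complex.continuous_ofReal
    have h5 := h4.tendsto 0
    rw [Complex.ofReal_zero, add_zero] at h5
    exact h5.mono_left nhdsWithin_le_nhds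
  obtain ⟨t, ht, ht0⟩ := ((h3.eventually h2).and self_mem_nhdsWithin).exists
  have ht0' : t ≠ 0 := ht0
  have e1 : z + (t : ℂ) - z = (t : ℂ) := by ring
  obtain ⟨j, a, hja, hj⟩ := k02a_fold T l (f z) hp0 k e z (z + (t : ℂ)) (by
    rw [e1]; exact k02a_ht T l _ hp0 k e t ht0')
  obtain ⟨j', a', hja', hj'⟩ := k02a_fold T l (f z) hp0 k' e' z (z + (t : ℂ)) (by
    rw [e1]; exact k02a_ht T l _ hp0 k' e' t ht0')
  have h4 : ∀ᶠ w in 𝓝 (z + (t : ℂ)), T.Lin j a w = T.Lin j' a' w +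
      (T.Lin j a z - T.Lin j' a' z) := by
    filter_upwards [ht, hj, hj'] with w g1 g2 g3
    rw [g2, g3] at g1
    have g4 := add_left_cancel g1
    rw [K01_sub, K01_sub] at g4
    linear_combination g4
  obtain ⟨hjj, haa, _⟩ := K01_open_inj T j j' a a' _ _ h4
  subst hjj haa
  rcases hja with ⟨g1, g2⟩ | ⟨g1, g2⟩ <;> rcases hja' with ⟨g3, g4⟩ | ⟨g3, g4⟩
  · exact Or.inl ⟨g3.symm.trans g1, g4.symm.trans g2⟩
  · right
    constructor
    · rw [← g1, g3, K01_rho_rho]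
    · rw [← g2, g4, Bool.not_not]
  · exact Or.inr ⟨g3.symm.trans g1, g4.symm.trans g2⟩
  · left
    constructor
    · have g5 := g3.symm.trans g1
      have g6 := congrArg (T.ρ l) g5
      rwa [K01_rho_rho, K01_rho_rho] at g6
    · have g5 := g4.symm.trans g2
      exact Bool.not_inj g5

theorem K02_congr (T : Table n N) {f g : ℂ → ℂ} {z : ℂ} {k : ZMod N} {e : Bool} (h : T.Is f z k e)
    (hfg : f =ᶠ[𝓝 z] g) : T.Is g z k e := by
  have hz : f z = g z := hfg.eq_of_nhds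
  rcases h with ⟨h1, h2⟩ | ⟨l, h1, h2⟩
  · refine Or.inl ⟨hz ▸ h1, ?_⟩
    filter_upwards [h2, hfg] with w g1 g2
    rw [← g2, g1, hz]
  · refine Or.inr ⟨l, hz ▸ h1, ?_⟩
    filter_upwards [h2, hfg] with w g1 g2
    rw [← g2, g1, hz]

theorem K02_congr_dev (T : Table n N) {f g : ℂ → ℂ} {z : ℂ} (h : T.DevAt f z)
    (hfg : f =ᶠ[𝓝 z] g) : T.DevAt g z := by
  obtain ⟨k, e, h⟩ := h
  exact ⟨k, e, K02_congr T h hfg⟩

theorem K02_comp_add (T : Table n N) {f : ℂ → ℂ} {z : ℂ} (c : ℂ) {k : ZMod N} {e : Bool}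
    (h : T.Is f (z + c) k e) : T.Is (fun w => f (w + c)) z k e := by
  have hc : Tendsto (fun w : ℂ => w + c) (𝓝 z) (𝓝 (z + c)) :=
    (continuous_id.add continuous_const).tendsto z
  rcases h with ⟨h1, h2⟩ | ⟨l, h1, h2⟩
  · refine Or.inl ⟨h1, ?_⟩
    filter_upwards [hc.eventually h2] with w g1
    rw [g1, add_sub_add_right_eq_sub]
  · refine Or.inr ⟨l, h1, ?_⟩
    filter_upwards [hc.eventually h2] with w g1
    rw [g1, add_sub_add_right_eq_sub]

theorem K02_comp_rx (T : Table n N) {f : ℂ → ℂ} {z : ℂ} {k : ZMod N} {e : Bool}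
    (h : T.Is f (rx z) k e) : T.Is (fun w => f (rx w)) z k (!e) := by
  have hrx : Continuous rx := by
    have h1 : rx = fun z : ℂ => -(starRingEnd ℂ) z := by
      funext z
      apply Complex.ext <;> simp [rx]
    rw [h1]
    exact Complex.continuous_conj.neg
  have hsub : ∀ w : ℂ, rx w - rx z = rx (w - z) := by
    intro w
    apply Complex.ext
    · simp only [rx, Complex.sub_re]
      ring
    · simp only [rx, Complex.sub_im]
  have hc : Tendsto rx (𝓝 z) (𝓝 (rx z)) := hrx.tendsto z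
  rcases h with ⟨h1, h2⟩ | ⟨l, h1, h2⟩
  · refine Or.inl ⟨h1, ?_⟩
    filter_upwards [hc.eventually h2] with w g1
    rw [g1, hsub, K01_rx]
  · refine Or.inr ⟨l, h1, ?_⟩
    filter_upwards [hc.eventually h2] with w g1
    rw [g1, hsub, K01_rx]

end Pool.Agent.H52D
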