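import Pool.Agent.Lib.H52D.K02

/-! # K03 : uniqueness of developments (library H52D) -/

namespace Pool.Agent.H52D

open Complex Topology Filter Set Metric
open Pool.Agent.H52W (cdet)

variable {n N : ℕ}

/-- Two germs at `z` which agree near points arbitrarily close to `z` are equal. -/
theorem K03_local (T : Table n N) {f g : ℂ → ℂ} {z : ℂ} (hf : T.DevAt f z) (hg : T.DevAt g z)
    (h : ∃ᶠ w in 𝓝 z, f =ᶠ[𝓝 w] g) : f =ᶠ[𝓝 z] g := by
  have cf := K02_continuousAt T hf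
  have cg := K02_continuousAt T hg
  have hv : f z = g z := by
    have ht : Tendsto (fun w => f w - g w) (𝓝 z) (𝓝 (f z - g z)) := cf.tendsto.sub cg.tendsto
    have hfr : ∃ᶠ w in 𝓝 z, f w - g w = 0 := h.mono fun w hw => sub_eq_zero.2 hw.self_of_nhds
    have hc : IsClosed ({0} : Set ℂ) := isClosed_singleton
    have : f z - g z ∈ ({0} : Set ℂ) := by
      by_contra hne
      have := ht.eventually (hc.isOpen_compl.mem_nhds hne)
      obtain ⟨w, h1, h2⟩ := (hfr.and_eventually this).exists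
      exact h2 h1
    exact sub_eq_zero.1 this
  obtain ⟨k, e, hk⟩ := id hf
  obtain ⟨k', e', hk'⟩ := id hg
  suffices H : ∃ k₀ e₀, T.Is f z k₀ e₀ ∧ T.Is g z k₀ e₀ by
    obtain ⟨k₀, e₀, h1, h2⟩ := H
    exact K02_eq T h1 h2 hv
  rcases K02_cases T hf with hp | ⟨l, hp⟩
  · have hp' : g z ∈ interior T.P := hv ▸ hp
    obtain ⟨w, hw, ⟨h1, h2⟩, ⟨h3, h4⟩⟩ := (h.and_eventually
      ((K02_near_int T hk hp).and (K02_near_int T hk' hp'))).exists
    have h5 : T.Is f w k' e' := K02_congr T h4 hw.symm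
    obtain ⟨rfl, rfl⟩ := K02_unique_int T h1 h2 h5
    exact ⟨k, e, hk, hk'⟩
  · have hp' : g z ∈ T.side l := hv ▸ hp
    obtain ⟨w, hw, ⟨h1, h2, h3⟩, ⟨h4, h5, h6⟩⟩ := (h.and_eventually
      ((K02_near_side T hk hp).and (K02_near_side T hk' hp'))).exists
    have hvw : f w = g w := hw.self_of_nhds
    have hfo := K02_other T hk hp
    have hgo := K02_other T hk' hp'
    -- the germ of `f` at `w`
    have F : (f w ∈ interior T.P ∧ ∃ k₁ e₁, T.Is f z k₁ e₁ ∧ T.Is f w k₁ e₁) ∨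
        (f w ∈ T.side l ∧ T.Is f w k e) := by
      rcases lt_trichotomy (T.ht l (f z + T.Lin k e (w - z))) 0 with a | a | a
      · exact Or.inl ⟨(h2 a).1, _, _, hfo, (h2 a).2⟩
      · exact Or.inr (h3 a)
      · exact Or.inl ⟨(h1 a).1, _, _, hk, (h1 a).2⟩
    have G : (g w ∈ interior T.P ∧ ∃ k₁ e₁, T.Is g z k₁ e₁ ∧ T.Is g w k₁ e₁) ∨
        (g w ∈ T.side l ∧ T.Is g w k' e') := by
      rcases lt_trichotomy (T.ht l (g z + T.Lin k' e' (w - z))) 0 with a | a | a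
      · exact Or.inl ⟨(h5 a).1, _, _, hgo, (h5 a).2⟩
      · exact Or.inr (h6 a)
      · exact Or.inl ⟨(h4 a).1, _, _, hk', (h4 a).2⟩
    rcases F with ⟨f1, k₁, e₁, f2, f3⟩ | ⟨f1, f2⟩
    · rcases G with ⟨g1, k₂, e₂, g2, g3⟩ | ⟨g1, g2⟩
      · have h7 : T.Is f w k₂ e₂ := K02_congr T g3 hw.symm
        obtain ⟨rfl, rfl⟩ := K02_unique_int T f1 f3 h7
        exact ⟨k₁, e₁, f2, g2⟩
      · exact absurd (hvw ▸ f1) (K01_side_mem T l _ g1).2.1
    · rcases G with ⟨g1, k₂, e₂, g2, g3⟩ | ⟨g1, g2⟩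
      · exact absurd (hvw ▸ g1) (K01_side_mem T l _ f1).2.1
      · have h7 : T.Is f w k' e' := K02_congr T g2 hw.symm
        rcases K02_unique_side T f1 f2 h7 with ⟨rfl, rfl⟩ | ⟨rfl, rfl⟩
        · exact ⟨_, _, hk, hk'⟩
        · exact ⟨_, _, hfo, hk'⟩

/-- Uniqueness on a preconnected set (clopen argument with `K03_local`; `{z | f =ᶠ[𝓝 z] g}` is open). -/
theorem K03_unique (T : Table n N) {f g : ℂ → ℂ} {U : Set ℂ} (hU : IsPreconnected U)
    (hf : T.Dev f U) (hg : T.Dev g U) {z₀ : ℂ} (hz₀ : z₀ ∈ U) (h : f =ᶠ[𝓝 z₀] g) :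
    ∀ z ∈ U, f =ᶠ[𝓝 z] g := by
  have hS : IsOpen {z | f =ᶠ[𝓝 z] g} := by
    rw [isOpen_iff_mem_nhds]
    intro z hz
    exact eventually_eventually_nhds.2 hz
  have hsub : U ⊆ {z | f =ᶠ[𝓝 z] g} := by
    refine hU.subset_of_closure_inter_subset hS ⟨z₀, hz₀, h⟩ ?_
    rintro z ⟨hz, hzU⟩
    exact K03_local T (hf z hzU) (hg z hzU) (mem_closure_iff_frequently.1 hz)
  exact fun z hz => hsub hz

end Pool.Agent.H52D
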