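import Pool.Agent.Lib.H52D.K03

/-! # K04 : propagation of equal germs along segments; gluing (library H52D) -/

namespace Pool.Agent.H52D

open Complex Topology Filter Set Metric
open Pool.Agent.H52W (cdet)

variable {n N : ℕ}

/-- Equal germs at `z` and `z'` propagate along the parallel segments from `z` to `z + c` and from `z'` to `z' + c`
(apply `K03_unique` to `w ↦ f (z + w)` and `w ↦ g (z' + w)` on the preconnected set `segment ℝ 0 c`). -/
theorem K04_prop (T : Table n N) {f g : ℂ → ℂ} {z z' c : ℂ} (hf : T.Dev f (segment ℝ z (z + c)))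
    (hg : T.Dev g (segment ℝ z' (z' + c))) (h : (fun w => f (z + w)) =ᶠ[𝓝 0] (fun w => g (z' + w))) :
    (fun w => f (z + c + w)) =ᶠ[𝓝 0] (fun w => g (z' + c + w)) := by
  sorry

/-- The same with a reflection. -/
theorem K04_prop_rx (T : Table n N) {f g : ℂ → ℂ} {z z' c : ℂ} (hf : T.Dev f (segment ℝ z (z + c)))
    (hg : T.Dev g (segment ℝ z' (z' + rx c))) (h : (fun w => f (z + w)) =ᶠ[𝓝 0] (fun w => g (z' + rx w))) :
    (fun w => f (z + c + w)) =ᶠ[𝓝 0] (fun w => g (z' + rx c + rx w)) := by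
  sorry

/-- Gluing of two developments. -/
theorem K04_glue (T : Table n N) {f g : ℂ → ℂ} {U W : Set ℂ} (hU : IsOpen U) (hW : IsOpen W)
    (hUW : IsPreconnected (U ∩ W)) (hf : T.Dev f U) (hg : T.Dev g W) {z₀ : ℂ} (hzU : z₀ ∈ U) (hzW : z₀ ∈ W)
    (h : f =ᶠ[𝓝 z₀] g) : ∃ F : ℂ → ℂ, T.Dev F (U ∪ W) ∧ (∀ z ∈ U, F =ᶠ[𝓝 z] f) ∧ ∀ z ∈ W, F =ᶠ[𝓝 z] g := by
  sorry

end Pool.Agent.H52D
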