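import Pool.Agent.Lib.H52D.K05A
import Pool.Agent.Lib.H52D.K03

/-! # K05 : uniform radius of existence (library H52D) -/

namespace Pool.Agent.H52D

open Complex Topology Filter Set Metric
open Pool.Agent.H52W (cdet)

variable {n N : ℕ}

/-- Extension to a boundary point.  If `f` is a development on the open set `U`, small discs around `z` meet `U` in
preconnected sets, and `f` tends to a point `q` of `P`, not a vertex, along `U`, then near `z` the map `f` is the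
restriction of a germ `g` at `z` with `g z = q`.  (`δ` from `K05_radius` for `q`; a point `w₀ ∈ U` close to `z`; the
development of `K05_radius` on `ball w₀ δ ∋ z` with the germ of `f` at `w₀`; uniqueness on `U ∩ ball z r`.) -/
theorem K05_extend (T : Table n N) {f : ℂ → ℂ} {U : Set ℂ} (hU : IsOpen U) (hf : T.Dev f U) (z q : ℂ)
    (hz : z ∈ closure U) (hconn : ∀ r > 0, IsPreconnected (U ∩ ball z r)) (hq : q ∈ T.P) (hv : q ∉ range T.v)
    (hlim : Tendsto f (𝓝[U] z) (𝓝 q)) :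
    ∃ g : ℂ → ℂ, g z = q ∧ T.DevAt g z ∧ ∃ r > 0, T.Dev g (ball z r) ∧ ∀ w ∈ U ∩ ball z r, f w = g w := by
  obtain ⟨δ, hδ, hrad⟩ := K05_radius T q hq hv
  have hne : (𝓝[U] z).NeBot := mem_closure_iff_nhdsWithin_neBot.1 hz
  have h1 : ∀ᶠ w in 𝓝[U] z, ‖f w - q‖ < δ := by
    have := hlim.eventually (ball_mem_nhds q hδ)
    filter_upwards [this] with w hw
    rwa [dist_eq_norm] at hw
  have h2 : ∀ᶠ w in 𝓝[U] z, w ∈ ball z (δ / 2) :=
    nhdsWithin_le_nhds (ball_mem_nhds z (half_pos hδ))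
  have h3 : ∀ᶠ w in 𝓝[U] z, w ∈ U := self_mem_nhdsWithin
  obtain ⟨w₀, ⟨hw1, hw2⟩, hw3⟩ := ((h1.and h2).and h3).exists
  obtain ⟨k, e, hke⟩ := hf w₀ hw3
  obtain ⟨g, hg1, hg2, hg3⟩ := hrad (f w₀) (K02_mem T ⟨k, e, hke⟩).1 hw1 k e w₀
  have hfg : f =ᶠ[𝓝 w₀] g := K02_eq T hke hg3 hg1.symm
  have hsub : ball z (δ / 2) ⊆ ball w₀ δ := by
    intro w hw
    rw [mem_ball] at hw hw2 ⊢
    calc dist w w₀ ≤ dist w z + dist z w₀ := dist_triangle _ _ _
      _ = dist w z + dist w₀ z := by rw [dist_comm z w₀]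
      _ < δ := by linarith
  have hgd : T.Dev g (ball z (δ / 2)) := fun w hw => hg2 w (hsub hw)
  have huniq := K03_unique T (hconn (δ / 2) (half_pos hδ)) (fun w hw => hf w hw.1)
    (fun w hw => hgd w hw.2) (z₀ := w₀) ⟨hw3, hw2⟩ hfg
  have heq : ∀ w ∈ U ∩ ball z (δ / 2), f w = g w := fun w hw => (huniq w hw).eq_of_nhds
  have hgz : T.DevAt g z := hgd z (mem_ball_self (half_pos hδ))
  have hgc : Tendsto g (𝓝[U] z) (𝓝 (g z)) :=
    (K02_continuousAt T hgz).tendsto.mono_left nhdsWithin_le_nhds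
  have hfg' : f =ᶠ[𝓝[U] z] g := by
    filter_upwards [h2, h3] with w hw hw'
    exact heq w ⟨hw', hw⟩
  have hlim' : Tendsto g (𝓝[U] z) (𝓝 q) := hlim.congr' hfg'
  exact ⟨g, tendsto_nhds_unique hgc hlim', hgz, δ / 2, half_pos hδ, hgd, heq⟩

end Pool.Agent.H52D
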