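import Pool.Agent.Lib.H52D.K03

/-! # K05 : uniform radius of existence (library H52D) -/

namespace Pool.Agent.H52D

open Complex Topology Filter Set Metric
open Pool.Agent.H52W (cdet)

variable {n N : ℕ}

/-- The affine map and a shift of the base point. -/
private theorem K05A_shift (T : Table n N) (k : ZMod N) (e : Bool) (p z w w' : ℂ) :
    p + T.Lin k e (w' - z) = (p + T.Lin k e (w - z)) + T.Lin k e (w' - w) := by
  have h : w' - z = (w - z) + (w' - w) := by ring
  rw [h, K01_add, add_assoc]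

private theorem K05A_mir (T : Table n N) (l : ZMod n) (q : ℂ) (hq : T.ht l q = 0) (k : ZMod N) (e : Bool) (x w : ℂ) :
    T.mir l (x + T.Lin k e w) = T.mir l x + T.Lin (T.ρ l k) (!e) w := by
  obtain ⟨u, hu⟩ := K01_surj T k e (x - q)
  have hx : x = q + T.Lin k e u := by rw [hu]; ring
  have h1 : T.mir l x = q + T.Lin (T.ρ l k) (!e) u := by
    rw [hx]; exact K01_mir_Lin T l q hq k e u
  have h2 : x + T.Lin k e w = q + T.Lin k e (u + w) := by
    rw [K01_add, ← add_assoc, ← hx]
  rw [h2, K01_mir_Lin T l q hq k e (u + w), h1, K01_add, add_assoc]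

private theorem K05A_pos (T : Table n N) (l : ZMod n) (p z w : ℂ) (k : ZMod N) (e : Bool)
    (h : 0 < T.ht l (p + T.Lin k e (w - z))) (hi : p + T.Lin k e (w - z) ∈ interior T.P) :
    T.Is (fun w => T.fold l (p + T.Lin k e (w - z))) w k e := by
  left
  have h0 : T.fold l (p + T.Lin k e (w - z)) = p + T.Lin k e (w - z) := K01_fold_nonneg T l _ h.le
  refine ⟨?_, ?_⟩
  · show T.fold l (p + T.Lin k e (w - z)) ∈ interior T.P
    rw [h0]; exact hi
  · have hc : Continuous fun w' : ℂ => T.ht l (p + T.Lin k e (w' - z)) :=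
      (K01_ht_continuous T l).comp (continuous_const.add ((K01_continuous T k e).comp
        (continuous_id.sub continuous_const)))
    have hev : ∀ᶠ w' in 𝓝 w, 0 < T.ht l (p + T.Lin k e (w' - z)) :=
      hc.continuousAt.eventually (lt_mem_nhds h)
    filter_upwards [hev] with w' hw'
    show T.fold l (p + T.Lin k e (w' - z)) = T.fold l (p + T.Lin k e (w - z)) + T.Lin k e (w' - w)
    rw [h0, K01_fold_nonneg T l _ hw'.le]
    exact K05A_shift T k e p z w w'

private theorem K05A_neg (T : Table n N) (l : ZMod n) (q : ℂ) (hq : T.ht l q = 0) (p z w : ℂ) (k : ZMod N) (e : Bool)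
    (h : T.ht l (p + T.Lin k e (w - z)) < 0) (hi : T.fold l (p + T.Lin k e (w - z)) ∈ interior T.P) :
    T.Is (fun w => T.fold l (p + T.Lin k e (w - z))) w (T.ρ l k) (!e) := by
  left
  refine ⟨hi, ?_⟩
  have hc : Continuous fun w' : ℂ => T.ht l (p + T.Lin k e (w' - z)) :=
    (K01_ht_continuous T l).comp (continuous_const.add ((K01_continuous T k e).comp
      (continuous_id.sub continuous_const)))
  have hev : ∀ᶠ w' in 𝓝 w, T.ht l (p + T.Lin k e (w' - z)) < 0 :=
    hc.continuousAt.eventually (gt_mem_nhds h)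
  filter_upwards [hev] with w' hw'
  show T.fold l (p + T.Lin k e (w' - z)) = T.fold l (p + T.Lin k e (w - z)) + T.Lin (T.ρ l k) (!e) (w' - w)
  rw [K01_fold_nonpos T l _ h.le, K01_fold_nonpos T l _ hw'.le, K05A_shift T k e p z w w',
    K05A_mir T l q hq k e]

private theorem K05A_zero (T : Table n N) (l : ZMod n) (p z w : ℂ) (k : ZMod N) (e : Bool)
    (h : T.ht l (p + T.Lin k e (w - z)) = 0) (hi : p + T.Lin k e (w - z) ∈ T.side l) :
    T.Is (fun w => T.fold l (p + T.Lin k e (w - z))) w k e := by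
  right
  have h0 : T.fold l (p + T.Lin k e (w - z)) = p + T.Lin k e (w - z) := K01_fold_nonneg T l _ h.ge
  refine ⟨l, ?_, ?_⟩
  · show T.fold l (p + T.Lin k e (w - z)) ∈ T.side l
    rw [h0]; exact hi
  · filter_upwards with w'
    show T.fold l (p + T.Lin k e (w' - z)) = T.fold l (T.fold l (p + T.Lin k e (w - z)) + T.Lin k e (w' - w))
    rw [h0, ← K05A_shift T k e p z w w']

private theorem K05A_dist (T : Table n N) (q p z w : ℂ) (k : ZMod N) (e : Bool) (δ r : ℝ) (hr : 2 * δ ≤ r)
    (hp : ‖p - q‖ < δ) (hw : w ∈ ball z δ) : p + T.Lin k e (w - z) ∈ ball q r := by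
  rw [mem_ball, dist_eq_norm] at hw ⊢
  have h1 : p + T.Lin k e (w - z) - q = (p - q) + T.Lin k e (w - z) := by ring
  rw [h1]
  have h2 := norm_add_le (p - q) (T.Lin k e (w - z))
  rw [K01_norm] at h2
  linarith

/-- Near a point `q` of `P` which is not a vertex all germs extend to a disc of a fixed radius `δ`.
Interior `q`: `ball q (2 δ) ⊆ interior P` and the affine map itself.  `q` in the open side `l`: take `r` from
`K01_fold_mem`, `δ = r / 4`, and `w ↦ fold l (p + Lin k e (w - z))`; where the height of the affine point is `≠ 0` this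
has an interior value and is locally affine (one uses `K01_fold_Lin`, `K01_mir_Lin`, `K02`), and where it is `0` it is a
germ on the side `l`. -/
theorem K05_radius (T : Table n N) (q : ℂ) (hq : q ∈ T.P) (hv : q ∉ range T.v) :
    ∃ δ > 0, ∀ p ∈ T.P, ‖p - q‖ < δ → ∀ (k : ZMod N) (e : Bool) (z : ℂ),
      ∃ f : ℂ → ℂ, f z = p ∧ T.Dev f (ball z δ) ∧ T.Is f z k e := by
  rcases K01_cases T q hq with hi | ⟨i, hi⟩ | ⟨l, hl⟩
  · obtain ⟨r, hr, hsub⟩ := Metric.isOpen_iff.1 isOpen_interior q hi
    refine ⟨r / 2, by positivity, fun p hp hpq k e z => ?_⟩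
    have key : ∀ w ∈ ball z (r / 2), T.Is (fun w => p + T.Lin k e (w - z)) w k e := by
      intro w hw
      left
      refine ⟨hsub (K05A_dist T q p z w k e (r / 2) r (by linarith) hpq hw), ?_⟩
      filter_upwards with w'
      exact K05A_shift T k e p z w w'
    refine ⟨fun w => p + T.Lin k e (w - z), ?_, fun w hw => ⟨k, e, key w hw⟩, key z (mem_ball_self (by positivity))⟩
    show p + T.Lin k e (z - z) = p
    rw [sub_self, K01_zero, add_zero]
  · exact absurd ⟨i, hi.symm⟩ hv
  · obtain ⟨r, hr, h1, h2⟩ := K01_fold_mem T l q hl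
    have hq0 : T.ht l q = 0 := K01_side_ht T l q hl
    refine ⟨r / 4, by positivity, fun p hp hpq k e z => ?_⟩
    have hpb : p ∈ ball q r := by
      rw [mem_ball, dist_eq_norm]; linarith
    have hp0 : 0 ≤ T.ht l p := ((h1 p hpb).2.1).1 hp
    have key : ∀ w ∈ ball z (r / 4),
        (0 ≤ T.ht l (p + T.Lin k e (w - z)) → T.Is (fun w => T.fold l (p + T.Lin k e (w - z))) w k e) ∧
        (T.ht l (p + T.Lin k e (w - z)) < 0 →
          T.Is (fun w => T.fold l (p + T.Lin k e (w - z))) w (T.ρ l k) (!e)) := by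
      intro w hw
      have hx : p + T.Lin k e (w - z) ∈ ball q r :=
        K05A_dist T q p z w k e (r / 4) r (by linarith) hpq hw
      refine ⟨fun h => ?_, fun h => ?_⟩
      · rcases h.lt_or_eq with h' | h'
        · exact K05A_pos T l p z w k e h' (((h1 _ hx).2.2).2 h')
        · exact K05A_zero T l p z w k e h'.symm ((h1 _ hx).1 h'.symm)
      · refine K05A_neg T l q hq0 p z w k e h (((h1 _ (h2 _ hx)).2.2).2 ?_)
        rw [K01_ht_fold]
        exact abs_pos.2 h.ne
    have hz : z ∈ ball z (r / 4) := mem_ball_self (by positivity)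
    have hzz : p + T.Lin k e (z - z) = p := by rw [sub_self, K01_zero, add_zero]
    refine ⟨fun w => T.fold l (p + T.Lin k e (w - z)), ?_, fun w hw => ?_, (key z hz).1 ?_⟩
    · show T.fold l (p + T.Lin k e (z - z)) = p
      rw [hzz]; exact K01_fold_nonneg T l p hp0
    · rcases le_or_gt 0 (T.ht l (p + T.Lin k e (w - z))) with h | h
      · exact ⟨k, e, (key w hw).1 h⟩
      · exact ⟨_, _, (key w hw).2 h⟩
    · rw [hzz]; exact hp0

end Pool.Agent.H52D
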