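import Pool.Agent.Lib.H52D.K06A
import Pool.Agent.Lib.H52D.K04
import Pool.Agent.Lib.H52D.K05

/-! # K06 : the maximal continuation (library H52D) -/

namespace Pool.Agent.H52D

open Complex Topology Filter Set Metric
open Pool.Agent.H52W (cdet)

variable {n N : ℕ}

/-- EXISTENCE of the continuation.  `Ext z := ∃ ε > 0, ∃ f, Dev f (thickening ε (segment ℝ ⟨0, z.im⟩ z)) ∧
f =ᶠ[𝓝 ⟨0, z.im⟩] base l`; `Ω := {z | z.im ∈ A l ∧ Ext z}`; `C z :=` the value `f z` of a chosen such `f`.
Thickenings of segments are convex (`Convex.thickening`), two of them over the same axis point meet in a convex set, so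
`K03_unique` shows that any such `f` for `z` coincides near `z` with `C` (for `z'` near `z` the same `f` works on a
smaller thickening; note that `f = base l` also near `⟨0, z'.im⟩`).  `ext`: a compact segment in an open set has a
thickening inside.  `symm`: compose with `rx` (`K02_comp_rx`, `K06_base_rx`).  `max`: on the segment towards the missing
point `⟨X, y⟩` the function `x ↦ C ⟨x, y⟩` is 1-Lipschitz (locally an isometry followed by a folding), so it has a limit
`q ∈ P`; if `q` is not a vertex, `K05_radius` gives a development on a disc of radius `δ` around a point `⟨x₀, y⟩` with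
`X - x₀ < δ / 2` which continues `C` (glue with `K04_glue`: thickening of the segment up to `⟨x₀, y⟩` and the disc, both
convex), so `⟨X, y⟩ ∈ Ω`, contradiction; hence `q` is a vertex. -/
theorem K06_exists (T : Table n N) (l : ZMod n) : ∃ (Ω : Set ℂ) (C : ℂ → ℂ), Cont T l Ω C := by
  sorry

end Pool.Agent.H52D
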