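import Pool.Agent.Lib.H52D.K02

/-! # K06 : the maximal continuation (library H52D) -/

namespace Pool.Agent.H52D

open Complex Topology Filter Set Metric
open Pool.Agent.H52W (cdet)

variable {n N : ℕ}

/-- `base l` is a development near the points of the axis over `A l`. -/
theorem K06_base (T : Table n N) (l : ZMod n) (y : ℝ) (hy : y ∈ T.A l) :
    T.Is (T.base l) ⟨0, y⟩ (T.δ l) true ∧ T.base l ⟨0, y⟩ ∈ T.side l := by
  sorry

theorem K06_base_rx (T : Table n N) (l : ZMod n) (z : ℂ) : T.base l (rx z) = T.base l z := by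
  sorry

theorem K06_A_open (T : Table n N) (l : ZMod n) : IsOpen (T.A l) := by
  sorry

/-- `A l` is a bounded open interval. -/
theorem K06_A_Ioo (T : Table n N) (l : ZMod n) : ∃ a b : ℝ, a < b ∧ T.A l = Ioo a b := by
  sorry

/-- The axis goes injectively into the side. -/
theorem K06_base_inj (T : Table n N) (l : ZMod n) (y y' : ℝ) (hy : y ∈ T.A l) (hy' : y' ∈ T.A l)
    (h : T.base l ⟨0, y⟩ = T.base l ⟨0, y'⟩) : y = y' := by
  sorry

end Pool.Agent.H52D
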