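import Pool.Agent.Lib.H52D.K04

/-! # K07 : perpendicular hits (library H52D) -/

namespace Pool.Agent.H52D

open Complex Topology Filter Set Metric
open Pool.Agent.H52W (cdet)

variable {n N : ℕ}

/-- A perpendicular hit is a symmetry of the germ. -/
theorem K07_symm (T : Table n N) {f : ℂ → ℂ} {z : ℂ} (h : T.DevAt f z) :
    T.Perp f z ↔ (fun w => f (z + w)) =ᶠ[𝓝 0] (fun w => f (z + rx w)) := by
  sorry

/-- Perpendicular hits are locally a vertical segment. -/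
theorem K07_near (T : Table n N) {f : ℂ → ℂ} {z : ℂ} (h : T.DevAt f z) :
    ∀ᶠ w in 𝓝 z, (T.Perp f w ↔ T.Perp f z ∧ w.re = z.re) := by
  sorry

theorem K07_congr (T : Table n N) {f g : ℂ → ℂ} {z z' : ℂ}
    (h : (fun w => f (z + w)) =ᶠ[𝓝 0] (fun w => g (z' + w))) : T.Perp f z ↔ T.Perp g z' := by
  sorry

theorem K07_congr_rx (T : Table n N) {f g : ℂ → ℂ} {z z' : ℂ}
    (h : (fun w => f (z + w)) =ᶠ[𝓝 0] (fun w => g (z' + rx w))) : T.Perp f z ↔ T.Perp g z' := by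
  sorry

/-- If no point of the open horizontal segment at height `y'` is a perpendicular hit for `y'` arbitrarily close to `y`,
then none at height `y`. -/
theorem K07_limit (T : Table n N) {f : ℂ → ℂ} {a b y : ℝ} (hf : ∀ x ∈ Ioo a b, T.DevAt f ⟨x, y⟩)
    (h : ∃ᶠ y' in 𝓝 y, ∀ x ∈ Ioo a b, ¬ T.Perp f ⟨x, y'⟩) : ∀ x ∈ Ioo a b, ¬ T.Perp f ⟨x, y⟩ := by
  sorry

end Pool.Agent.H52D
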