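import Pool.Agent.Lib.H52D.K02

/-! # K08 : a leaf which tends to a vertex is straight near the vertex (library H52D) -/

namespace Pool.Agent.H52D

open Complex Topology Filter Set Metric
open Pool.Agent.H52W (cdet)

variable {n N : ℕ}

theorem K08_RIs_of_Is (T : Table n N) {f : ℂ → ℂ} {x y : ℝ} {k : ZMod N} {e : Bool} (h : T.Is f ⟨x, y⟩ k e) :
    T.RIs (fun t => f ⟨t, y⟩) x k e := by
  sorry

/-- One variable version of uniqueness of `(k, e)`. -/
theorem K08_RIs_unique (T : Table n N) {f : ℝ → ℂ} {x : ℝ} {k k' : ZMod N} {e e' : Bool} (h : T.RIs f x k e)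
    (h' : T.RIs f x k' e') : (k' = k ∧ e' = e) ∨ ∃ l, f x ∈ T.side l ∧ k' = T.ρ l k ∧ e' = !e := by
  sorry

/-- STRAIGHTNESS.  Let `ψ x = ‖f x - v i‖²`.  For `x` close to `b` the point `f x` is so close to `v i` that only the two
sides at `v i` can be met; the mirror maps of these sides fix `v i`, so locally `ψ x' = ‖f x + Lin k e (x' - x) - v i‖²`:
`ψ` is locally a quadratic polynomial with leading coefficient 1, hence `x ↦ ψ x - x²` is locally affine, hence affine on
the interval (connectedness).  `ψ → 0` at `b`, `ψ ≥ 0` and `ψ x ≤ (b - x)²` (1-Lipschitz) give `ψ x = (b - x)²`.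
Then `Lin k e 1` points from `f x` to `v i`; if `f x` were in a side at `v i`, this direction would be parallel to the
side, against `transv`.  So `f x` is interior, `(k, e)` is locally constant, hence constant. -/
theorem K08_straight (T : Table n N) {f : ℝ → ℂ} {a b : ℝ} (hab : a < b) (hf : T.RP f a b) (i : ZMod n)
    (hlim : Tendsto f (𝓝[<] b) (𝓝 (T.v i))) :
    ∃ (k : ZMod N) (e : Bool) (c : ℝ), a < c ∧ c < b ∧ ∀ x ∈ Ioo c b,
      f x ∈ interior T.P ∧ T.RIs f x k e ∧ f x = T.v i - ((b - x : ℝ) : ℂ) * T.Lin k e 1 := by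
  sorry

/-- The same at the left end (compose with `x ↦ -x`). -/
theorem K08_straight_left (T : Table n N) {f : ℝ → ℂ} {a b : ℝ} (hab : a < b) (hf : T.RP f a b) (i : ZMod n)
    (hlim : Tendsto f (𝓝[>] a) (𝓝 (T.v i))) :
    ∃ (k : ZMod N) (e : Bool) (c : ℝ), a < c ∧ c < b ∧ ∀ x ∈ Ioo a c,
      f x ∈ interior T.P ∧ T.RIs f x k e ∧ f x = T.v i + ((x - a : ℝ) : ℂ) * T.Lin k e 1 := by
  sorry

end Pool.Agent.H52D
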