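import Pool.Agent.Lib.H52D.K07
import Pool.Agent.Lib.H52D.K08

/-! # K09 : finitely many exceptional leaves (library H52D) -/

namespace Pool.Agent.H52D

open Complex Topology Filter Set Metric
open Pool.Agent.H52W (cdet)

variable {n N : ℕ}

private theorem K09_seg {T : Table n N} {C : ℂ → ℂ} {Ω : Set ℂ} (hdev : T.Dev C Ω) {y a b : ℝ}
    (hb : 0 ≤ b) (h : ∀ x ∈ Icc a (a + b), (⟨x, y⟩ : ℂ) ∈ Ω) :
    T.Dev C (segment ℝ (⟨a + b, y⟩ : ℂ) (⟨a + b, y⟩ + ⟨-b, 0⟩)) := by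
  rw [segment_eq_image']
  rintro _ ⟨s, hs, rfl⟩
  have e : (⟨a + b, y⟩ + s • ((⟨a + b, y⟩ : ℂ) + ⟨-b, 0⟩ - ⟨a + b, y⟩) : ℂ) =
      ⟨a + (1 - s) * b, y⟩ := by
    apply Complex.ext <;> simp
    ring
  show T.DevAt C (⟨a + b, y⟩ + s • ((⟨a + b, y⟩ : ℂ) + ⟨-b, 0⟩ - ⟨a + b, y⟩) : ℂ)
  rw [e]
  refine hdev _ (h _ ⟨?_, ?_⟩)
  · have := mul_nonneg (sub_nonneg.2 hs.2) hb
    linarith
  · have := mul_nonneg hs.1 hb
    linarith

/-- FINITELY MANY EXCEPTIONAL LEAVES.  For `y ∈ Exc` with stop time `X` the leaf tends to a vertex `v i` (`Cont.max`) and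
is straight near `X` (`K08_straight` for `x ↦ C ⟨x, y⟩`, via `K08_RIs_of_Is`; by `ne_neg` the pair `(k, e)` there is also
the one of `Is`): this gives a triple `(i, k, e)`.  The map `y ↦ (i, k, e)` is injective: if `y, y'` with `X ≤ X'` give
the same triple then the germs of `C` at `⟨X - t, y⟩` and `⟨X' - t, y'⟩` agree for small `t > 0` (same value, same
`(k, e)`, `K02_eq_shift`); go back (`K04_prop` with `c = ⟨-(X - t), 0⟩`): the germs at `⟨0, y⟩` and `⟨X' - X, y'⟩` agree, the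
first is a perpendicular hit (`K06_base`), so the second is (`K07_congr`), so `X' = X`; then `base l` has the same value
at `⟨0, y⟩` and `⟨0, y'⟩`, so `y = y'`. -/
theorem K09_finite (T : Table n N) [NeZero n] [NeZero N] (l : ZMod n) {Ω : Set ℂ} {C : ℂ → ℂ}
    (hC : Cont T l Ω C) (hperp : ∀ y ∈ T.A l, T.Perp C ⟨0, y⟩)
    (hinj : ∀ y ∈ T.A l, ∀ y' ∈ T.A l, C ⟨0, y⟩ = C ⟨0, y'⟩ → y = y') : (Exc T l Ω C).Finite := by
  have key : ∀ y ∈ Exc T l Ω C, ∃ q : ZMod n × ZMod N × Bool, y ∈ T.A l ∧ ∃ X > 0,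
      (∀ x ∈ Ico (0 : ℝ) X, (⟨x, y⟩ : ℂ) ∈ Ω) ∧ (∀ x ∈ Ioo (0 : ℝ) X, ¬ T.Perp C ⟨x, y⟩) ∧
      ∃ c, 0 < c ∧ c < X ∧ ∀ x ∈ Ioo c X, T.Is C ⟨x, y⟩ q.2.1 q.2.2 ∧
        C ⟨x, y⟩ = T.v q.1 - ((X - x : ℝ) : ℂ) * T.Lin q.2.1 q.2.2 1 := by
    rintro y ⟨hyA, X, hX, hΩ, hXΩ, hnp⟩
    obtain ⟨i, hi⟩ := hC.max y hyA X hX hΩ hXΩ
    have hRP : T.RP (fun x : ℝ => C ⟨x, y⟩) 0 X := by
      intro x hx
      obtain ⟨k, e, hke⟩ := hC.dev _ (hΩ x ⟨hx.1.le, hx.2⟩)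
      exact ⟨k, e, K08_RIs_of_Is T hke⟩
    obtain ⟨k, e, c, hc0, hcX, hc⟩ := K08_straight T hX hRP i hi
    refine ⟨(i, k, e), hyA, X, hX, hΩ, hnp, c, hc0, hcX, fun x hx => ?_⟩
    obtain ⟨h1, h2, h3⟩ := hc x hx
    refine ⟨?_, h3⟩
    obtain ⟨k', e', hke⟩ := hC.dev _ (hΩ x ⟨(hc0.trans hx.1).le, hx.2⟩)
    rcases K08_RIs_unique T h2 (K08_RIs_of_Is T hke) with ⟨rfl, rfl⟩ | ⟨l', hl', -, -⟩
    · exact hke
    · exact absurd h1 (K01_side_mem T l' _ hl').2.1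
  have main : ∀ (q : ZMod n × ZMod N × Bool) (y y' X X' c c' : ℝ), y ∈ T.A l → y' ∈ T.A l →
      0 < X → X ≤ X' → (∀ x ∈ Ico (0 : ℝ) X, (⟨x, y⟩ : ℂ) ∈ Ω) →
      (∀ x ∈ Ico (0 : ℝ) X', (⟨x, y'⟩ : ℂ) ∈ Ω) → (∀ x ∈ Ioo (0 : ℝ) X', ¬ T.Perp C ⟨x, y'⟩) →
      0 < c → c < X → c' < X' →
      (∀ x ∈ Ioo c X, T.Is C ⟨x, y⟩ q.2.1 q.2.2 ∧
        C ⟨x, y⟩ = T.v q.1 - ((X - x : ℝ) : ℂ) * T.Lin q.2.1 q.2.2 1) →
      (∀ x ∈ Ioo c' X', T.Is C ⟨x, y'⟩ q.2.1 q.2.2 ∧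
        C ⟨x, y'⟩ = T.v q.1 - ((X' - x : ℝ) : ℂ) * T.Lin q.2.1 q.2.2 1) → y = y' := by
    intro q y y' X X' c c' hy hy' hX hXX hΩ hΩ' hnp hc0 hc hc' h h'
    obtain ⟨t, ht0, ht1⟩ : ∃ t : ℝ, 0 < t ∧ t < min (X - c) (X' - c') :=
      exists_between (lt_min (by linarith) (by linarith))
    have ht2 : t < X - c := ht1.trans_le (min_le_left _ _)
    have ht3 : t < X' - c' := ht1.trans_le (min_le_right _ _)
    obtain ⟨h1, h2⟩ := h (X - t) ⟨by linarith, by linarith⟩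
    obtain ⟨h3, h4⟩ := h' (X' - t) ⟨by linarith, by linarith⟩
    have h5 : C ⟨X - t, y⟩ = C ⟨X' - t, y'⟩ := by
      rw [h2, h4]
      congr 3
      ring
    have h6 := K02_eq_shift T h1 h3 h5
    have e1 : (⟨X - t, y⟩ : ℂ) = ⟨0 + (X - t), y⟩ := by rw [zero_add]
    have e2 : (⟨X' - t, y'⟩ : ℂ) = ⟨(X' - X) + (X - t), y'⟩ := by
      congr 1
      ring
    rw [e1, e2] at h6
    have h7 := K04_prop T
      (K09_seg hC.dev (y := y) (a := 0) (b := X - t) (by linarith)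
        (fun x hx => hΩ x ⟨hx.1, by linarith [hx.2]⟩))
      (K09_seg hC.dev (y := y') (a := X' - X) (b := X - t) (by linarith)
        (fun x hx => hΩ' x ⟨by linarith [hx.1], by linarith [hx.2]⟩)) h6
    have e3 : ((⟨0 + (X - t), y⟩ : ℂ) + ⟨-(X - t), 0⟩) = ⟨0, y⟩ := by
      apply Complex.ext <;> simp
    have e4 : ((⟨(X' - X) + (X - t), y'⟩ : ℂ) + ⟨-(X - t), 0⟩) = ⟨X' - X, y'⟩ := by
      apply Complex.ext <;> simp
    rw [e3, e4] at h7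
    have h8 := (K07_congr T h7).1 (hperp y hy)
    have h9 : X' = X := by
      by_contra hne
      have hlt : X < X' := lt_of_le_of_ne hXX (Ne.symm hne)
      exact hnp (X' - X) ⟨by linarith, by linarith⟩ h8
    subst h9
    have h10 := h7.eq_of_nhds
    simp only [add_zero, sub_self] at h10
    exact hinj y hy y' hy' h10
  choose! F hF using key
  refine Set.Finite.of_finite_image (f := F) (Set.toFinite _) ?_
  intro y hy y' hy' hyy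
  obtain ⟨hA, X, hX, hΩ, hnp, c, hc0, hcX, hc⟩ := hF y hy
  obtain ⟨hA', X', hX', hΩ', hnp', c', hc0', hcX', hc'⟩ := hF y' hy'
  rw [← hyy] at hc'
  rcases le_total X X' with hle | hle
  · exact main (F y) y y' X X' c c' hA hA' hX hle hΩ hΩ' hnp' hc0 hcX hcX' hc hc'
  · exact (main (F y) y' y X' X c' c hA' hA hX' hle hΩ' hΩ hnp hc0' hcX' hcX hc' hc).symm

end Pool.Agent.H52D
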