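import Pool.Agent.Lib.H52D.K07

/-! # K10 : the area argument (library H52D) -/

namespace Pool.Agent.H52D

open Complex Topology Filter Set Metric
open Pool.Agent.H52W (cdet)

variable {n N : ℕ}

private theorem k10b_line (T : Table n N) (l : ZMod n) (k : ZMod N) (e : Bool) (z p : ℂ)
    (hp : T.ht l p = 0) :
    MeasureTheory.volume {w : ℂ | T.ht l (p + T.Lin k e (w - z)) = 0} = 0 := by
  let s : Submodule ℝ ℂ :=
    { carrier := {y | T.sg l * cdet (T.v (l + 1) - T.v l) (T.Lin k e y) = 0}
      add_mem' := by
        intro a b ha hb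
        simp only [Set.mem_ofPred_eq] at ha hb ⊢
        rw [K01_add]
        have : cdet (T.v (l + 1) - T.v l) (T.Lin k e a + T.Lin k e b) =
            cdet (T.v (l + 1) - T.v l) (T.Lin k e a) + cdet (T.v (l + 1) - T.v l) (T.Lin k e b) := by
          simp only [cdet, Complex.add_re, Complex.add_im]; ring
        rw [this, mul_add, ha, hb, add_zero]
      zero_mem' := by
        simp only [Set.mem_ofPred_eq]
        rw [K01_zero]
        simp [cdet]
      smul_mem' := by
        intro c y hy
        simp only [Set.mem_ofPred_eq] at hy ⊢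
        have h1 : c • y = (c : ℂ) * y := Complex.real_smul
        rw [h1, K01_smul]
        have : cdet (T.v (l + 1) - T.v l) ((c : ℂ) * T.Lin k e y) =
            c * cdet (T.v (l + 1) - T.v l) (T.Lin k e y) := by
          simp only [cdet, Complex.mul_re, Complex.mul_im, Complex.ofReal_re, Complex.ofReal_im]; ring
        rw [this, mul_left_comm, hy, mul_zero] }
  have hs : s ≠ ⊤ := by
    intro htop
    obtain ⟨w, hw⟩ := K01_surj T k e (T.κ k)
    have h1 : w ∈ s := by rw [htop]; trivial
    have h2 : T.sg l * cdet (T.v (l + 1) - T.v l) (T.Lin k e w) = 0 := h1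
    rw [hw] at h2
    rcases mul_eq_zero.1 h2 with h3 | h3
    · rcases T.hsg l with h4 | h4 <;> rw [h4] at h3 <;> norm_num at h3
    · exact T.transv l k h3
  have h0 : MeasureTheory.volume (s : Set ℂ) = 0 :=
    MeasureTheory.Measure.addHaar_submodule MeasureTheory.volume s hs
  have he : {w : ℂ | T.ht l (p + T.Lin k e (w - z)) = 0} = (fun w : ℂ => w + (-z)) ⁻¹' (s : Set ℂ) := by
    ext w
    simp only [Set.mem_ofPred_eq, Set.mem_preimage]
    have h1 := K01_ht_add T l p (T.Lin k e (w - z)) 1
    simp only [Complex.ofReal_one, one_mul, hp, zero_add] at h1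
    rw [h1, ← sub_eq_add_neg]
    rfl
  rw [he, MeasureTheory.measure_preimage_add_right]
  exact h0

private theorem k10b_isom (T : Table n N) (k : ZMod N) (e : Bool) :
    ∃ A : ℂ →L[ℝ] ℂ, (∀ w, A w = T.Lin k e w) ∧ |A.det| = 1 := by
  let L : ℂ →ₗᵢ[ℝ] ℂ :=
    { toFun := T.Lin k e
      map_add' := K01_add T k e
      map_smul' := by
        intro c y
        have h1 : c • y = (c : ℂ) * y := Complex.real_smul
        have h2 : c • T.Lin k e y = (c : ℂ) * T.Lin k e y := Complex.real_smul
        rw [h1, K01_smul]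
        simp
      norm_map' := K01_norm T k e }
  refine ⟨L.toContinuousLinearMap, fun w => rfl, ?_⟩
  have h1 := L.normDet_eq_one
  rw [LinearMap.normDet_eq_abs_det] at h1
  exact h1

/-- The points with a value on a side are a null set (locally contained in a line; `measure_null_of_locally_null`). -/
theorem K10_null (T : Table n N) {f : ℂ → ℂ} {U : Set ℂ} (hU : IsOpen U) (hf : T.Dev f U) :
    MeasureTheory.volume {z | z ∈ U ∧ f z ∉ interior T.P} = 0 := by
  refine MeasureTheory.measure_null_of_locally_null _ fun z hz => ?_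
  obtain ⟨hzU, hzP⟩ := hz
  obtain ⟨k, e, hk | ⟨l, hl, hev⟩⟩ := hf z hzU
  · exact absurd hk.1 hzP
  refine ⟨{w : ℂ | T.ht l (f z + T.Lin k e (w - z)) = 0}, ?_,
    k10b_line T l k e z (f z) (K01_side_ht T l _ hl)⟩
  obtain ⟨r, hr, hr1, hr2⟩ := K01_fold_mem T l (f z) hl
  have hball : ∀ᶠ w in 𝓝 z, w ∈ ball z r := ball_mem_nhds z hr
  have h1 : ∀ᶠ w in 𝓝 z, f w ∉ interior T.P → T.ht l (f z + T.Lin k e (w - z)) = 0 := by
    filter_upwards [hev, hball] with w hw hwb hwP
    have hx : f z + T.Lin k e (w - z) ∈ ball (f z) r := by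
      rw [mem_ball, dist_eq_norm, add_sub_cancel_left, K01_norm, ← dist_eq_norm]
      exact hwb
    have h2 := (hr1 _ (hr2 _ hx)).2.2
    rw [← hw] at h2
    have h3 : ¬ (0 < T.ht l (f w)) := fun h => hwP (h2.2 h)
    rw [hw, K01_ht_fold] at h3
    by_contra h4
    exact h3 (abs_pos.2 h4)
  rw [mem_nhdsWithin_iff_eventually]
  filter_upwards [h1] with w hw hwS
  exact hw hwS.2

/-- The image of an open set of points with interior value and copy `k`, on which `f` is injective, has the same area
(`MeasureTheory.lintegral_abs_det_fderiv_eq_addHaar_image`, the derivative is the linear isometry `Lin k e`). -/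
theorem K10_image (T : Table n N) {f : ℂ → ℂ} {S : Set ℂ} {k : ZMod N} (hS : MeasurableSet S)
    (hf : ∀ z ∈ S, f z ∈ interior T.P ∧ ∃ e, T.Is f z k e) (hinj : InjOn f S) :
    MeasureTheory.volume S ≤ MeasureTheory.volume T.P := by
  choose! e he using fun z hz => (hf z hz).2
  choose A hA hdet using k10b_isom T k
  have hder : ∀ z ∈ S, HasFDerivWithinAt f (A (e z)) S z := by
    intro z hz
    have h1 := K02_int T (he z hz) (hf z hz).1
    have h2 : HasFDerivAt (fun w => f z + T.Lin k (e z) (w - z)) (A (e z)) z := by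
      have h3 : (fun w => f z + T.Lin k (e z) (w - z)) = fun w => f z + A (e z) (w - z) := by
        funext w; rw [hA]
      rw [h3]
      have h4 : HasFDerivAt (fun w => A (e z) (w - z)) (A (e z)) z := by
        have h5 : HasFDerivAt (⇑(A (e z))) (A (e z)) ((fun w : ℂ => w - z) z) :=
          (A (e z)).hasFDerivAt
        have h6 : HasFDerivAt (fun w : ℂ => w - z) (ContinuousLinearMap.id ℝ ℂ) z :=
          (hasFDerivAt_id z).sub_const z
        have h7 := HasFDerivAt.comp (f := fun w : ℂ => w - z) z h5 h6
        rw [ContinuousLinearMap.comp_id] at h7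
        exact h7
      exact h4.const_add (f z)
    exact (h2.congr_of_eventuallyEq h1).hasFDerivWithinAt
  have h := MeasureTheory.lintegral_abs_det_fderiv_eq_addHaar_image MeasureTheory.volume hS hder hinj
  have h1 : ∫⁻ x in S, ENNReal.ofReal |(A (e x)).det| ∂MeasureTheory.volume =
      MeasureTheory.volume S := by
    simp [hdet]
  rw [h1] at h
  rw [h]
  refine MeasureTheory.measure_mono ?_
  rintro _ ⟨z, hz, rfl⟩
  exact interior_subset (hf z hz).1

end Pool.Agent.H52D
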