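import Pool.Agent.Lib.H52D.K10A
import Pool.Agent.Lib.H52D.K10B
import Pool.Agent.Lib.H52D.K07

/-! # K10 : the area argument (library H52D) -/

namespace Pool.Agent.H52D

open Complex Topology Filter Set Metric
open Pool.Agent.H52W (cdet)

variable {n N : ℕ}

/-- AREA.  No interval of leaves is infinite without perpendicular hits: `(0, X) × (y₀, y₁)` is, up to a null set, the
union of the `N` open sets of points with copy `k`, so `X (y₁ - y₀) ≤ N * volume P` for all `X`; but `P` is bounded. -/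
theorem K10_area (T : Table n N) [NeZero N] (l : ZMod n) {Ω : Set ℂ} {C : ℂ → ℂ} (hC : Cont T l Ω C)
    (hperp : ∀ y ∈ T.A l, T.Perp C ⟨0, y⟩)
    (hinj : ∀ y ∈ T.A l, ∀ y' ∈ T.A l, C ⟨0, y⟩ = C ⟨0, y'⟩ → y = y')
    {y₀ y₁ : ℝ} (hlt : y₀ < y₁) (hΩ : ∀ y ∈ Ioo y₀ y₁, ∀ x, 0 ≤ x → (⟨x, y⟩ : ℂ) ∈ Ω)
    (hnp : ∀ y ∈ Ioo y₀ y₁, ∀ x, 0 < x → ¬ T.Perp C ⟨x, y⟩) : False := by
  sorry

end Pool.Agent.H52D
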