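import Pool.Agent.Lib.H52D.K07

/-! # K10 : the area argument (library H52D) -/

namespace Pool.Agent.H52D

open Complex Topology Filter Set Metric
open Pool.Agent.H52W (cdet)

variable {n N : ℕ}

/-- INJECTIVITY: without perpendicular hits for positive times, `C` is injective on the points with a fixed copy. -/
theorem K10_inj (T : Table n N) (l : ZMod n) {Ω : Set ℂ} {C : ℂ → ℂ} (hC : Cont T l Ω C)
    (hperp : ∀ y ∈ T.A l, T.Perp C ⟨0, y⟩)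
    (hinj : ∀ y ∈ T.A l, ∀ y' ∈ T.A l, C ⟨0, y⟩ = C ⟨0, y'⟩ → y = y')
    {y₀ y₁ : ℝ} (hΩ : ∀ y ∈ Ioo y₀ y₁, ∀ x, 0 ≤ x → (⟨x, y⟩ : ℂ) ∈ Ω)
    (hnp : ∀ y ∈ Ioo y₀ y₁, ∀ x, 0 < x → ¬ T.Perp C ⟨x, y⟩) {z z' : ℂ} {k : ZMod N} {e e' : Bool}
    (hz : 0 < z.re ∧ z.im ∈ Ioo y₀ y₁) (hz' : 0 < z'.re ∧ z'.im ∈ Ioo y₀ y₁)
    (h : T.Is C z k e) (h' : T.Is C z' k e') (hv : C z = C z') : z = z' := by
  sorry

end Pool.Agent.H52D
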