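import Pool.Agent.Lib.H52D.K11A
import Pool.Agent.Lib.H52D.K07

/-! # K11 : strips (library H52D) -/

namespace Pool.Agent.H52D

open Complex Topology Filter Set Metric
open Pool.Agent.H52W (cdet)

variable {n N : ℕ}

private theorem K11B_tend (x y : ℝ) : Tendsto (fun q : ℝ × ℝ => (⟨q.2, q.1⟩ : ℂ)) (𝓝 (y, x)) (𝓝 ⟨x, y⟩) := by
  have h : Continuous fun q : ℝ × ℝ => (⟨q.2, q.1⟩ : ℂ) := by
    have h1 : (fun q : ℝ × ℝ => (⟨q.2, q.1⟩ : ℂ)) = fun q : ℝ × ℝ => ((q.2 : ℝ) : ℂ) + ((q.1 : ℝ) : ℂ) * Complex.I := by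
      funext q
      apply Complex.ext <;> simp
    rw [h1]
    fun_prop
  exact h.tendsto (y, x)

private theorem K11B_tend1 (x y : ℝ) : Tendsto (fun t : ℝ => (⟨x, t⟩ : ℂ)) (𝓝 y) (𝓝 ⟨x, y⟩) := by
  have h1 : Tendsto (fun t : ℝ => (t, x)) (𝓝 y) (𝓝 (y, x)) := (Continuous.prodMk_left x).tendsto y
  exact (K11B_tend x y).comp h1

private theorem K11B_tend2 (x y : ℝ) : Tendsto (fun t : ℝ => (⟨t, y⟩ : ℂ)) (𝓝 x) (𝓝 ⟨x, y⟩) := by
  have h1 : Tendsto (fun t : ℝ => (y, t)) (𝓝 x) (𝓝 (y, x)) := (Continuous.prodMk_right y).tendsto x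
  exact (K11B_tend x y).comp h1

/-- the first point of a leaf outside of `Ω` -/
private theorem K11B_first {T : Table n N} {l : ZMod n} {Ω : Set ℂ} {C : ℂ → ℂ} (hC : Cont T l Ω C)
    {y X : ℝ} (hy : y ∈ T.A l) (hX : 0 ≤ X) (h : (⟨X, y⟩ : ℂ) ∉ Ω) :
    ∃ X', 0 < X' ∧ X' ≤ X ∧ (∀ x ∈ Ico (0 : ℝ) X', (⟨x, y⟩ : ℂ) ∈ Ω) ∧ (⟨X', y⟩ : ℂ) ∉ Ω := by
  set S : Set ℝ := {x | 0 ≤ x ∧ (⟨x, y⟩ : ℂ) ∉ Ω} with hS
  have hcl : IsClosed S := by
    have h1 : Continuous fun t : ℝ => (⟨t, y⟩ : ℂ) := continuous_iff_continuousAt.2 fun x => K11B_tend2 x y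
    have h2 : IsClosed {x : ℝ | (⟨x, y⟩ : ℂ) ∉ Ω} := (hC.isOpen.preimage h1).isClosed_compl
    exact isClosed_Ici.inter h2
  have hne : S.Nonempty := ⟨X, hX, h⟩
  have hbd : BddBelow S := ⟨0, fun x hx => hx.1⟩
  have hmem := hcl.csInf_mem hne hbd
  have hpos : 0 < sInf S := by
    rcases hmem.1.eq_or_lt with h3 | h3
    · exfalso
      apply hmem.2
      rw [← h3]
      exact hC.axis y hy
    · exact h3
  refine ⟨sInf S, hpos, csInf_le hbd ⟨hX, h⟩, fun x hx => ?_, hmem.2⟩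
  by_contra h4
  exact absurd (csInf_le hbd ⟨hx.1, h4⟩) (not_le.2 hx.2)

/-- CONSTANT RETURN TIME.  On an interval without exceptional leaves the first perpendicular time is constant.
If one leaf of the interval has a perpendicular hit, take its first time `X` (`K11_first`); the set `G` of the
`y ∈ Ioo y₀ y₁` with `⟨x, y⟩ ∈ Ω` for `x ∈ Icc 0 X`, perpendicular hit at `⟨X, y⟩` and none at `⟨x, y⟩`, `0 < x < X`, is open
(compactness of `Icc 0 X`, `K07_near`) and closed in the interval: at a limit `y`, if `⟨X', y⟩ ∉ Ω` for a first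
`X' ≤ X` then there is no hit on `Ioo 0 X'` (`K07_limit`), so `y ∈ Exc`, contradiction; so `⟨X, y⟩ ∈ Ω` and `K07_near`
gives the hit at `⟨X, y⟩`.  Otherwise no leaf of the interval has a positive hit; as no leaf is exceptional, all
`⟨x, y⟩`, `x ≥ 0`, are in `Ω`: excluded by the area argument `harea`. -/
theorem K11_strip (T : Table n N) (l : ZMod n) {Ω : Set ℂ} {C : ℂ → ℂ} (hC : Cont T l Ω C)
    (harea : ∀ y₀ y₁ : ℝ, y₀ < y₁ → (∀ y ∈ Ioo y₀ y₁, ∀ x, 0 ≤ x → (⟨x, y⟩ : ℂ) ∈ Ω) →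
      (∀ y ∈ Ioo y₀ y₁, ∀ x, 0 < x → ¬ T.Perp C ⟨x, y⟩) → False)
    {y₀ y₁ : ℝ} (hlt : y₀ < y₁) (hsub : Ioo y₀ y₁ ⊆ T.A l) (hexc : ∀ y ∈ Ioo y₀ y₁, y ∉ Exc T l Ω C) :
    ∃ X, Strip T l Ω C y₀ y₁ X := by
  by_cases hhit : ∃ y ∈ Ioo y₀ y₁, ∃ X, 0 < X ∧ (⟨X, y⟩ : ℂ) ∈ Ω ∧ T.Perp C ⟨X, y⟩
  · obtain ⟨ys, hys, Xs, hXs, hΩs, hps⟩ := hhit
    obtain ⟨X, hX0, hXX, hpX, hnX⟩ := K11_first T l hC ys (hsub hys) Xs hXs hΩs hps
    have hseg : ∀ y X : ℝ, 0 ≤ X → (⟨X, y⟩ : ℂ) ∈ Ω → ∀ x ∈ Icc 0 X, (⟨x, y⟩ : ℂ) ∈ Ω := by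
      intro y X hX h x hx
      rcases hX.eq_or_lt with h1 | h1
      · have h2 : x = X := le_antisymm hx.2 (h1 ▸ hx.1)
        rw [h2]
        exact h
      · have h3 := hC.hconv _ h (x / X) ⟨div_nonneg hx.1 hX, (div_le_one h1).2 hx.2⟩
        have h4 : x / X * X = x := div_mul_cancel₀ x h1.ne'
        simpa [h4] using h3
    set G : Set ℝ := {y | (∀ x ∈ Icc 0 X, (⟨x, y⟩ : ℂ) ∈ Ω) ∧ T.Perp C ⟨X, y⟩ ∧
      ∀ x ∈ Ioo 0 X, ¬ T.Perp C ⟨x, y⟩} with hG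
    have hGs : ys ∈ G := ⟨fun x hx => hseg ys Xs hXs.le hΩs x ⟨hx.1, hx.2.trans hXX⟩, hpX, hnX⟩
    -- open
    have hopen : ∀ y ∈ G, ∀ᶠ y' in 𝓝 y, y' ∈ G := by
      intro y hy
      have h1 : ∀ᶠ y' in 𝓝 y, ∀ x ∈ Icc 0 X, (⟨x, y'⟩ : ℂ) ∈ Ω ∧ (x ∈ Ioo 0 X → ¬ T.Perp C ⟨x, y'⟩) := by
        refine isCompact_Icc.eventually_forall_of_forall_eventually (P := fun y' x =>
          (⟨x, y'⟩ : ℂ) ∈ Ω ∧ (x ∈ Ioo 0 X → ¬ T.Perp C ⟨x, y'⟩)) fun x hx => ?_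
        have h2 : ∀ᶠ w : ℂ in 𝓝 ⟨x, y⟩, w ∈ Ω ∧ (w.re ∈ Ioo 0 X → ¬ T.Perp C w) := by
          have h3 := hy.1 x hx
          filter_upwards [hC.isOpen.mem_nhds h3, K07_near T (hC.dev _ h3)] with w hw1 hw2
          refine ⟨hw1, fun hw3 hw4 => ?_⟩
          obtain ⟨h5, h6⟩ := hw2.1 hw4
          have h7 : w.re = x := h6
          rw [h7] at hw3
          exact hy.2.2 x hw3 h5
        exact (K11B_tend x y).eventually h2
      have h8 := K07_near T (hC.dev _ (hy.1 X ⟨hX0.le, le_rfl⟩))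
      have h9 := (K11B_tend1 X y).eventually h8
      filter_upwards [h1, h9] with y' h10 h11
      exact ⟨fun x hx => (h10 x hx).1, h11.2 ⟨hy.2.1, rfl⟩, fun x hx => (h10 x ⟨hx.1.le, hx.2.le⟩).2 hx⟩
    -- closed
    have hclosed : ∀ y ∈ Ioo y₀ y₁, (∃ᶠ y' in 𝓝 y, y' ∈ G) → y ∈ G := by
      intro y hy hf
      have hlim : ∀ X', X' ≤ X → (∀ x ∈ Ioo 0 X', (⟨x, y⟩ : ℂ) ∈ Ω) → ∀ x ∈ Ioo 0 X', ¬ T.Perp C ⟨x, y⟩ := by
        intro X' hX' hin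
        refine K07_limit T (fun x hx => hC.dev _ (hin x hx)) (hf.mono fun y' hy' x hx => ?_)
        exact hy'.2.2 x ⟨hx.1, hx.2.trans_le hX'⟩
      have hXΩ : (⟨X, y⟩ : ℂ) ∈ Ω := by
        by_contra hno
        obtain ⟨X', h1, h2, h3, h4⟩ := K11B_first hC (hsub hy) hX0.le hno
        exact hexc y hy ⟨hsub hy, X', h1, h3, h4, hlim X' h2 fun x hx => h3 x ⟨hx.1.le, hx.2⟩⟩
      have hall := hseg y X hX0.le hXΩ
      refine ⟨hall, ?_, hlim X le_rfl fun x hx => hall x ⟨hx.1.le, hx.2.le⟩⟩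
      have h8 := K07_near T (hC.dev _ hXΩ)
      have h9 := (K11B_tend1 X y).eventually h8
      obtain ⟨y', hy', h11⟩ := (hf.and_eventually h9).exists
      exact (h11.1 hy'.2.1).1
    have hall : ∀ y ∈ Ioo y₀ y₁, y ∈ G := by
      have hpre : IsPreconnected (Ioo y₀ y₁) := isPreconnected_Ioo
      by_contra hne
      push Not at hne
      obtain ⟨z, hz, hzG⟩ := hne
      have hU : IsOpen (interior G) := isOpen_interior
      have hV : IsOpen (interior Gᶜ) := isOpen_interior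
      have hcov : Ioo y₀ y₁ ⊆ interior G ∪ interior Gᶜ := by
        intro y hy
        by_cases h : y ∈ G
        · exact Or.inl (mem_interior_iff_mem_nhds.2 (hopen y h))
        · right
          rw [mem_interior_iff_mem_nhds]
          by_contra h2
          apply h
          apply hclosed y hy
          intro h3
          exact h2 h3
      have h5 := hpre _ _ hU hV hcov ⟨ys, hys, mem_interior_iff_mem_nhds.2 (hopen ys hGs)⟩
        ⟨z, hz, ?_⟩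
      · obtain ⟨w, _, hw1, hw2⟩ := h5
        exact interior_subset hw2 (interior_subset hw1)
      · rcases hcov hz with h6 | h6
        · exact absurd (interior_subset h6) hzG
        · exact h6
    exact ⟨X, hlt, hX0, hsub, fun y hy => (hall y hy).1, fun y hy => (hall y hy).2.1,
      fun y hy => (hall y hy).2.2⟩
  · exfalso
    push Not at hhit
    have hin : ∀ y ∈ Ioo y₀ y₁, ∀ x, 0 ≤ x → (⟨x, y⟩ : ℂ) ∈ Ω := by
      intro y hy x hx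
      by_contra hno
      obtain ⟨X', h1, h2, h3, h4⟩ := K11B_first hC (hsub hy) hx hno
      exact hexc y hy ⟨hsub hy, X', h1, h3, h4, fun x hx => hhit y hy x hx.1 (h3 x ⟨hx.1.le, hx.2⟩)⟩
    exact harea y₀ y₁ hlt hin fun y hy x hx => hhit y hy x hx (hin y hy x hx.le)

end Pool.Agent.H52D
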