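import Pool.Agent.Lib.H52D.K06A
import Pool.Agent.Lib.H52D.K11B
import Pool.Agent.Lib.H52D.K07

/-! # K11 : strips (library H52D) -/

namespace Pool.Agent.H52D

open Complex Topology Filter Set Metric
open Pool.Agent.H52W (cdet)

variable {n N : ℕ}

/-- FINITELY MANY STRIPS.  `A l` is a bounded open interval; the finite set `Exc` cuts it into finitely many intervals. -/
theorem K11_strips (T : Table n N) (l : ZMod n) {Ω : Set ℂ} {C : ℂ → ℂ} (hC : Cont T l Ω C)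
    (harea : ∀ y₀ y₁ : ℝ, y₀ < y₁ → (∀ y ∈ Ioo y₀ y₁, ∀ x, 0 ≤ x → (⟨x, y⟩ : ℂ) ∈ Ω) →
      (∀ y ∈ Ioo y₀ y₁, ∀ x, 0 < x → ¬ T.Perp C ⟨x, y⟩) → False)
    (hfin : (Exc T l Ω C).Finite) :
    ∃ (m : ℕ) (y₀ y₁ X : Fin m → ℝ), (∀ j, Strip T l Ω C (y₀ j) (y₁ j) (X j)) ∧
      ∀ y ∈ T.A l, (∃ j, y₀ j < y ∧ y ≤ y₁ j) ∧ ∃ j, y₀ j ≤ y ∧ y < y₁ j := by
  sorry

end Pool.Agent.H52D
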