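import Pool.Agent.Lib.H52D.K07

/-! # K11 : strips (library H52D) -/

namespace Pool.Agent.H52D

open Complex Topology Filter Set Metric
open Pool.Agent.H52W (cdet)

variable {n N : ℕ}

private theorem k11a_cont (y : ℝ) : Continuous fun x : ℝ => (⟨x, y⟩ : ℂ) := by
  have h : (fun x : ℝ => (⟨x, y⟩ : ℂ)) = fun x : ℝ => (x : ℂ) + (y : ℂ) * I := by
    funext x
    apply Complex.ext <;> simp
  rw [h]
  fun_prop

private theorem k11a_near (T : Table n N) {f : ℂ → ℂ} {x y : ℝ} (h : T.DevAt f ⟨x, y⟩) :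
    ∃ ε > 0, ∀ x', |x' - x| < ε → (T.Perp f ⟨x', y⟩ ↔ T.Perp f ⟨x, y⟩ ∧ x' = x) := by
  have h1 := (k11a_cont y).continuousAt (x := x) |>.eventually (K07_near T h)
  obtain ⟨ε, hε, h2⟩ := Metric.eventually_nhds_iff.1 h1
  exact ⟨ε, hε, fun x' hx' => h2 (by rwa [Real.dist_eq])⟩

/-- Near the axis, outside of it, there are no perpendicular hits (`K07_near` at `⟨0, y⟩`). -/
theorem K11_small (T : Table n N) (l : ZMod n) {Ω : Set ℂ} {C : ℂ → ℂ} (hC : Cont T l Ω C) (y : ℝ) (hy : y ∈ T.A l) :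
    ∃ ε > 0, ∀ x ∈ Ioo 0 ε, ¬ T.Perp C ⟨x, y⟩ := by
  obtain ⟨ε, hε, h⟩ := k11a_near T (hC.dev _ (hC.axis y hy))
  refine ⟨ε, hε, fun x hx hp => ?_⟩
  have h1 := (h x (by rw [sub_zero, abs_of_pos hx.1]; exact hx.2)).1 hp
  exact hx.1.ne' h1.2

/-- The first perpendicular hit: the hits on a compact piece of a leaf form a closed set of isolated points. -/
theorem K11_first (T : Table n N) (l : ZMod n) {Ω : Set ℂ} {C : ℂ → ℂ} (hC : Cont T l Ω C) (y : ℝ) (hy : y ∈ T.A l)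
    (X : ℝ) (hX : 0 < X) (hΩ : (⟨X, y⟩ : ℂ) ∈ Ω) (hp : T.Perp C ⟨X, y⟩) :
    ∃ X', 0 < X' ∧ X' ≤ X ∧ T.Perp C ⟨X', y⟩ ∧ ∀ x ∈ Ioo 0 X', ¬ T.Perp C ⟨x, y⟩ := by
  obtain ⟨ε, hε, hs⟩ := K11_small T l hC y hy
  set S : Set ℝ := {x | 0 < x ∧ x ≤ X ∧ T.Perp C ⟨x, y⟩} with hS
  have hXS : X ∈ S := ⟨hX, le_rfl, hp⟩
  have hbd : BddBelow S := ⟨0, fun x hx => hx.1.le⟩
  have hεle : ∀ x ∈ S, ε ≤ x := by
    intro x hx
    by_contra hlt
    exact hs x ⟨hx.1, not_le.1 hlt⟩ hx.2.2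
  have h1 : ε ≤ sInf S := le_csInf ⟨X, hXS⟩ hεle
  have h2 : sInf S ≤ X := csInf_le hbd hXS
  have h0 : 0 < sInf S := hε.trans_le h1
  have hmem : (⟨sInf S, y⟩ : ℂ) ∈ Ω := by
    have h3 := hC.hconv _ hΩ (sInf S / X) ⟨by positivity, (div_le_one hX).2 h2⟩
    have h4 : sInf S / X * X = sInf S := div_mul_cancel₀ _ hX.ne'
    simpa only [h4] using h3
  obtain ⟨r, hr, hn⟩ := k11a_near T (hC.dev _ hmem)
  obtain ⟨x, hxS, hx⟩ := exists_lt_of_csInf_lt ⟨X, hXS⟩ (show sInf S < sInf S + r by linarith)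
  have hge : sInf S ≤ x := csInf_le hbd hxS
  have h5 := (hn x (by rw [abs_of_nonneg (by linarith)]; linarith)).1 hxS.2.2
  refine ⟨sInf S, h0, h2, h5.1, fun x' hx' hp' => ?_⟩
  exact absurd (csInf_le hbd (show x' ∈ S from ⟨hx'.1, hx'.2.le.trans h2, hp'⟩)) (not_le.2 hx'.2)

end Pool.Agent.H52D
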