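import Pool.Agent.Lib.H52D.K12A
import Pool.Agent.Lib.H52D.K07

/-! # K12 : periodicity and the other end of a strip (library H52D) -/

namespace Pool.Agent.H52D

open Complex Topology Filter Set Metric
open Pool.Agent.H52W (cdet)

variable {n N : ℕ}

/-- THE OTHER END.  The strip, seen from its end at `x = X`, is part of the continuation of another side `l'`. -/
theorem K12_other (T : Table n N) (l : ZMod n) {Ω : ZMod n → Set ℂ} {C : ZMod n → ℂ → ℂ}
    (hC : ∀ l, Cont T l (Ω l) (C l)) {y₀ y₁ X : ℝ} (hs : Strip T l (Ω l) (C l) y₀ y₁ X) :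
    ∃ (l' : ZMod n) (c : ℝ), Strip T l' (Ω l') (C l') (y₀ + c) (y₁ + c) X ∧
      ∀ z : ℂ, z.im ∈ Ioo y₀ y₁ → C l' ⟨X - z.re, z.im + c⟩ = C l z := by
  sorry

end Pool.Agent.H52D
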