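import Pool.Agent.Lib.H52D.K12A
import Pool.Agent.Lib.H52D.K12B

/-! # K12 : periodicity and the other end of a strip (library H52D) -/
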