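import Pool.Agent.Lib.H52D.K07

/-! # K12 : periodicity and the other end of a strip (library H52D) -/

namespace Pool.Agent.H52D

open Complex Topology Filter Set Metric
open Pool.Agent.H52W (cdet)

variable {n N : ℕ}

/-- PERIODICITY.  `F ⟨x, y⟩ := C ⟨|x - 2 X round (x / (2 X))|, y⟩` is a development on `ℝ × (y₀, y₁)` (near a point with
`x ∉ X + 2 X ℤ` it is `C` composed with a translation, and `rx` is a symmetry of `C`; near the other points the symmetry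
`K07_symm` of `C` at `⟨X, y⟩` is used), so `Cont.ext_mem`, `Cont.ext_eq` apply. -/
theorem K12_period (T : Table n N) (l : ZMod n) {Ω : Set ℂ} {C : ℂ → ℂ} (hC : Cont T l Ω C) {y₀ y₁ X : ℝ}
    (hs : Strip T l Ω C y₀ y₁ X) : (∀ z : ℂ, z.im ∈ Ioo y₀ y₁ → z ∈ Ω) ∧
      (∀ z : ℂ, z.im ∈ Ioo y₀ y₁ → C (z + ⟨2 * X, 0⟩) = C z) ∧
      ∀ z : ℂ, z.im ∈ Ioo y₀ y₁ → C (⟨2 * X, 0⟩ + rx z) = C z := by
  sorry

/-- Reduction to the fundamental domain. -/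
theorem K12_reduce (T : Table n N) (l : ZMod n) {Ω : Set ℂ} {C : ℂ → ℂ} (hC : Cont T l Ω C) {y₀ y₁ X : ℝ}
    (hs : Strip T l Ω C y₀ y₁ X) (z : ℂ) (hz : z.im ∈ Ioo y₀ y₁) (k : ZMod N) (e : Bool) (h : T.Is C z k e) :
    ∃ x ∈ Icc 0 X, ∃ e', C ⟨x, z.im⟩ = C z ∧ T.Is C ⟨x, z.im⟩ k e' := by
  sorry

end Pool.Agent.H52D
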