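import Pool.Agent.Lib.H52D.K13A
import Pool.Agent.Lib.H52D.K05
import Pool.Agent.Lib.H52D.K12

/-! # K13 : the boundary leaf of a strip (library H52D) -/

namespace Pool.Agent.H52D

open Complex Topology Filter Set Metric
open Pool.Agent.H52W (cdet)

variable {n N : ℕ}

/-- On the boundary leaf, away from the vertices, `φ` is locally the restriction of the extension `g`; so it is a piece
of a leaf; and no perpendicular hits for `0 < x < X` (else `g` has one, so `C` has one nearby by `K07_near`). -/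
theorem K13_RP (T : Table n N) (l : ZMod n) {Ω : Set ℂ} {C : ℂ → ℂ} (hC : Cont T l Ω C) {y₀ y₁ X : ℝ}
    (hs : Strip T l Ω C y₀ y₁ X) (y : ℝ) (hy : y = y₀ ∨ y = y₁) (φ : ℝ → ℂ) (hφ : Continuous φ)
    (hlim : ∀ x, Tendsto C (𝓝[{z | z.im ∈ Ioo y₀ y₁}] (⟨x, y⟩ : ℂ)) (𝓝 (φ x)))
    (hg : ∀ x, φ x ∉ range T.v → ∃ g : ℂ → ℂ, g ⟨x, y⟩ = φ x ∧ T.DevAt g ⟨x, y⟩ ∧
        ∀ᶠ z in 𝓝 (⟨x, y⟩ : ℂ), z.im ∈ Ioo y₀ y₁ → C z = g z)
    {a b : ℝ} (ha : 0 ≤ a) (hb : b ≤ X) (hv : ∀ x ∈ Ioo a b, φ x ∉ range T.v) :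
    T.RP φ a b ∧ ∀ x ∈ Ioo a b, ¬ T.RPerp φ x := by
  sorry

end Pool.Agent.H52D
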