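import Pool.Agent.Lib.H52D.K13B
import Pool.Agent.Lib.H52D.K05
import Pool.Agent.Lib.H52D.K12

/-! # K13 : the boundary leaf of a strip (library H52D) -/

namespace Pool.Agent.H52D

open Complex Topology Filter Set Metric
open Pool.Agent.H52W (cdet)

variable {n N : ℕ}

/-- (A1) on the boundary leaf: on one side of `x*` there is no vertex. -/
theorem K13_side (T : Table n N) (hA1 : T.A1) (l : ZMod n) {Ω : Set ℂ} {C : ℂ → ℂ} (hC : Cont T l Ω C) {y₀ y₁ X : ℝ}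
    (hs : Strip T l Ω C y₀ y₁ X) (y : ℝ) (hy : y = y₀ ∨ y = y₁) (φ : ℝ → ℂ) (hφ : Continuous φ)
    (hlim : ∀ x, Tendsto C (𝓝[{z | z.im ∈ Ioo y₀ y₁}] (⟨x, y⟩ : ℂ)) (𝓝 (φ x)))
    (hg : ∀ x, φ x ∉ range T.v → ∃ g : ℂ → ℂ, g ⟨x, y⟩ = φ x ∧ T.DevAt g ⟨x, y⟩ ∧
        ∀ᶠ z in 𝓝 (⟨x, y⟩ : ℂ), z.im ∈ Ioo y₀ y₁ → C z = g z)
    (x : ℝ) (hx : x ∈ Ioo 0 X) (hxv : φ x ∉ range T.v) :
    (∀ t ∈ Icc 0 x, φ t ∉ range T.v) ∨ ∀ t ∈ Icc x X, φ t ∉ range T.v := by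
  sorry

end Pool.Agent.H52D
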