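import Pool.Agent.Lib.H52D.K13C
import Pool.Agent.Lib.H52D.K05
import Pool.Agent.Lib.H52D.K12

/-! # K13 : the boundary leaf of a strip (library H52D) -/

namespace Pool.Agent.H52D

open Complex Topology Filter Set Metric
open Pool.Agent.H52W (cdet)

variable {n N : ℕ}

/-- If there is no vertex between the axis and `x`, the boundary leaf up to `x` belongs to `Ω` and `C = φ` there.
(At `x = 0` the value `φ 0` is in the closed side and not a vertex, so `y ∈ A l`; then `Cont.max` and continuity of `C`.) -/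
theorem K13_mem (T : Table n N) (l : ZMod n) {Ω : Set ℂ} {C : ℂ → ℂ} (hC : Cont T l Ω C) {y₀ y₁ X : ℝ}
    (hs : Strip T l Ω C y₀ y₁ X) (y : ℝ) (hy : y = y₀ ∨ y = y₁) (φ : ℝ → ℂ) (hφ : Continuous φ)
    (hlim : ∀ x, Tendsto C (𝓝[{z | z.im ∈ Ioo y₀ y₁}] (⟨x, y⟩ : ℂ)) (𝓝 (φ x)))
    (x : ℝ) (hx : 0 ≤ x) (hv : ∀ t ∈ Icc 0 x, φ t ∉ range T.v) :
    (⟨x, y⟩ : ℂ) ∈ Ω ∧ C ⟨x, y⟩ = φ x := by
  sorry

end Pool.Agent.H52D
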