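import Pool.Agent.Lib.H52D.K13A
import Pool.Agent.Lib.H52D.K13B
import Pool.Agent.Lib.H52D.K13C
import Pool.Agent.Lib.H52D.K13D

/-! # K13 : the boundary leaf of a strip (library H52D) -/
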