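import Pool.Agent.Lib.H52D.K05
import Pool.Agent.Lib.H52D.K12

/-! # K13 : the boundary leaf of a strip (library H52D) -/

namespace Pool.Agent.H52D

open Complex Topology Filter Set Metric
open Pool.Agent.H52W (cdet)

variable {n N : ℕ}

/-- THE BOUNDARY LEAF at `y* = y₀` or `y* = y₁`: `φ x` is the limit of `C` at `⟨x, y*⟩` along the strip (`C` is
1-Lipschitz on the convex set `ℝ × (y₀, y₁)`).  `φ` is 1-Lipschitz with values in `P`; where `φ x` is not a vertex,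
`K05_extend` gives a development near `⟨x, y*⟩` which extends `C`. -/
theorem K13_leaf (T : Table n N) (l : ZMod n) {Ω : Set ℂ} {C : ℂ → ℂ} (hC : Cont T l Ω C) {y₀ y₁ X : ℝ}
    (hs : Strip T l Ω C y₀ y₁ X) (y : ℝ) (hy : y = y₀ ∨ y = y₁) :
    ∃ φ : ℝ → ℂ, Continuous φ ∧ (∀ x, φ x ∈ T.P) ∧
      (∀ x, Tendsto C (𝓝[{z | z.im ∈ Ioo y₀ y₁}] (⟨x, y⟩ : ℂ)) (𝓝 (φ x))) ∧
      ∀ x, φ x ∉ range T.v → ∃ g : ℂ → ℂ, g ⟨x, y⟩ = φ x ∧ T.DevAt g ⟨x, y⟩ ∧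
        ∀ᶠ z in 𝓝 (⟨x, y⟩ : ℂ), z.im ∈ Ioo y₀ y₁ → C z = g z := by
  sorry

end Pool.Agent.H52D
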