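import Pool.Agent.Lib.H52D.K14A
import Pool.Agent.Lib.H52D.K13

/-! # K14 : the points on perpendicular leaves (library H52D) -/

namespace Pool.Agent.H52D

open Complex Topology Filter Set Metric
open Pool.Agent.H52W (cdet)

variable {n N : ℕ}

/-- CLOSED in the interior.  A sequence of points as in `K14_dense` tending to `p`; infinitely many with the same
`(l, j, e)`; their `(x, y)` accumulate at `(x*, y*) ∈ Icc 0 X × Icc y₀ y₁`.  If `y* ∈ Ioo y₀ y₁` done by continuity.
Otherwise `K13_leaf` for `y*`: `φ x* = p` is interior so `x* ∈ Ioo 0 X` (`φ 0` and `φ X` are in the frontier).  By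
`K13_side` and `K13_mem` (for the strip itself, or for the strip of the other side `l'` from `K12_other`) the point lies
in `WW`; its `(k, e)` is the right one because `C` has the germ `(k, e)` at points close to it (`K02_near_int`). -/
theorem K14_closed (T : Table n N) [NeZero n] (hA1 : T.A1) {Ω : ZMod n → Set ℂ} {C : ZMod n → ℂ → ℂ}
    (hC : ∀ l, Cont T l (Ω l) (C l)) (m : ZMod n → ℕ) (y₀ y₁ X : ∀ l, Fin (m l) → ℝ)
    (hs : ∀ l j, Strip T l (Ω l) (C l) (y₀ l j) (y₁ l j) (X l j))
    (hcov : ∀ l, ∀ y ∈ T.A l, (∃ j, y₀ l j < y ∧ y ≤ y₁ l j) ∧ ∃ j, y₀ l j ≤ y ∧ y < y₁ l j)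
    (k : ZMod N) (p : ℂ) (hp : p ∈ interior T.P) (hcl : p ∈ closure (interior T.P ∩ WW T Ω C k)) :
    p ∈ WW T Ω C k := by
  sorry

end Pool.Agent.H52D
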