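import Pool.Agent.Lib.H52D.K14A
import Pool.Agent.Lib.H52D.K13

/-! # K14 : the points on perpendicular leaves (library H52D) -/

namespace Pool.Agent.H52D

open Complex Topology Filter Set Metric
open Pool.Agent.H52W (cdet)

variable {n N : ℕ}

/-- A germ near a regular point `q` moves along its leaf: if `C l` has at `z` a value `p` close to `q` then the horizontal
segment of half length `δ` around `z` is in `Ω l` (as long as ...: glue `C l` with the disc of `K05_radius`, both
directions; for the direction towards the axis one uses `rx`). -/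
theorem K14_disc (T : Table n N) {Ω : ZMod n → Set ℂ} {C : ZMod n → ℂ → ℂ} (hC : ∀ l, Cont T l (Ω l) (C l))
    (q : ℂ) (hq : q ∈ T.P) (hv : q ∉ range T.v) :
    ∃ δ > 0, ∀ (l : ZMod n) (z : ℂ), z ∈ Ω l → ‖C l z - q‖ < δ → ∀ t : ℝ, |t| < δ → z + (t : ℂ) ∈ Ω l := by
  sorry

end Pool.Agent.H52D
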