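import Pool.Agent.Lib.H52D.K14C
import Pool.Agent.Lib.H52D.K13

/-! # K14 : the points on perpendicular leaves (library H52D) -/

namespace Pool.Agent.H52D

open Complex Topology Filter Set Metric
open Pool.Agent.H52W (cdet)

variable {n N : ℕ}

/-- SPREAD over the copies, and the points of the open sides. -/
theorem K14_side (T : Table n N) {Ω : ZMod n → Set ℂ} {C : ZMod n → ℂ → ℂ} (hC : ∀ l, Cont T l (Ω l) (C l))
    (k : ZMod N) (hk : interior T.P ⊆ WW T Ω C k) (l : ZMod n) (q : ℂ) (hq : q ∈ T.side l) :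
    q ∈ WW T Ω C k ∧ (interior T.P ∩ WW T Ω C (T.ρ l k)).Nonempty := by
  sorry

end Pool.Agent.H52D
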