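import Pool.Agent.Lib.H52D.K13

/-! # K14 : the points on perpendicular leaves (library H52D) -/

namespace Pool.Agent.H52D

open Complex Topology Filter Set Metric
open Pool.Agent.H52W (cdet)

variable {n N : ℕ}

/-- The points of `P` whose leaf in copy `k` is a leaf of some `C l`. -/
def WW (T : Table n N) (Ω : ZMod n → Set ℂ) (C : ZMod n → ℂ → ℂ) (k : ZMod N) : Set ℂ :=
  {p | ∃ l, ∃ z ∈ Ω l, ∃ e, C l z = p ∧ T.Is (C l) z k e}

/-- OPEN: near an interior point `C l` is onto a neighbourhood with the same `(k, e)`. -/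
theorem K14_open (T : Table n N) {Ω : ZMod n → Set ℂ} {C : ZMod n → ℂ → ℂ} (hC : ∀ l, Cont T l (Ω l) (C l))
    (k : ZMod N) : IsOpen (interior T.P ∩ WW T Ω C k) := by
  rw [isOpen_iff_mem_nhds]
  rintro p ⟨hp, l, z, hz, e, hCz, hI⟩
  have hpi : C l z ∈ interior T.P := by rw [hCz]; exact hp
  have h1 := K02_near_int T hI hpi
  have h2 := K02_int T hI hpi
  have h3 : ∀ᶠ w in 𝓝 z, w ∈ Ω l := (hC l).isOpen.mem_nhds hz
  obtain ⟨ε, hε, hb⟩ := Metric.eventually_nhds_iff_ball.1 (h1.and (h2.and h3))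
  filter_upwards [Metric.ball_mem_nhds p hε] with q hq
  obtain ⟨w₀, hw₀⟩ := K01_surj T k e (q - p)
  have hn : ‖w₀‖ = ‖q - p‖ := by rw [← hw₀, K01_norm]
  have hw : z + w₀ ∈ ball z ε := by
    rw [mem_ball_iff_norm, add_sub_cancel_left, hn]
    exact mem_ball_iff_norm.1 hq
  obtain ⟨⟨h4, h5⟩, h6, h7⟩ := hb _ hw
  have h8 : C l (z + w₀) = q := by
    rw [h6, add_sub_cancel_left, hw₀, hCz]
    ring
  refine ⟨?_, l, z + w₀, h7, e, h8, h5⟩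
  rw [← h8]
  exact h4

/-- The points of `WW` on strips are dense in `WW` (finitely many exceptional leaves), with `x ∈ [0, X]`
(`K12_reduce`). -/
theorem K14_dense (T : Table n N) {Ω : ZMod n → Set ℂ} {C : ZMod n → ℂ → ℂ} (hC : ∀ l, Cont T l (Ω l) (C l))
    (m : ZMod n → ℕ) (y₀ y₁ X : ∀ l, Fin (m l) → ℝ)
    (hs : ∀ l j, Strip T l (Ω l) (C l) (y₀ l j) (y₁ l j) (X l j))
    (hcov : ∀ l, ∀ y ∈ T.A l, (∃ j, y₀ l j < y ∧ y ≤ y₁ l j) ∧ ∃ j, y₀ l j ≤ y ∧ y < y₁ l j)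
    (k : ZMod N) (p : ℂ) (hp : p ∈ interior T.P) (hpW : p ∈ WW T Ω C k) (ε : ℝ) (hε : 0 < ε) :
    ∃ (l : ZMod n) (j : Fin (m l)) (x y : ℝ) (e : Bool), x ∈ Icc 0 (X l j) ∧ y ∈ Ioo (y₀ l j) (y₁ l j) ∧
      T.Is (C l) ⟨x, y⟩ k e ∧ ‖C l ⟨x, y⟩ - p‖ < ε ∧ C l ⟨x, y⟩ ∈ interior T.P := by
  obtain ⟨l, z, hz, e, hCz, hI⟩ := hpW
  have hpi : C l z ∈ interior T.P := by rw [hCz]; exact hp
  have h1 := K02_near_int T hI hpi
  have h2 := K02_int T hI hpi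
  obtain ⟨δ, hδ, hb⟩ := Metric.eventually_nhds_iff_ball.1 (h1.and h2)
  obtain ⟨j, hj0, hj1⟩ := (hcov l z.im ((hC l).im_mem z hz)).2
  obtain ⟨t, ht0, ht1⟩ : ∃ t : ℝ, 0 < t ∧ t < min (min δ ε) (y₁ l j - z.im) :=
    exists_between (lt_min (lt_min hδ hε) (sub_pos.2 hj1))
  have htδ : t < δ := lt_of_lt_of_le ht1 ((min_le_left _ _).trans (min_le_left _ _))
  have htε : t < ε := lt_of_lt_of_le ht1 ((min_le_left _ _).trans (min_le_right _ _))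
  have hty : t < y₁ l j - z.im := lt_of_lt_of_le ht1 (min_le_right _ _)
  have hd : ((⟨z.re, z.im + t⟩ : ℂ) - z) = ⟨0, t⟩ := by
    apply Complex.ext
    · simp
    · simp
  have hn : ‖((⟨z.re, z.im + t⟩ : ℂ) - z)‖ = t := by
    rw [hd]
    have : (⟨0, t⟩ : ℂ) = (t : ℂ) * Complex.I := by
      apply Complex.ext <;> simp
    rw [this, norm_mul, Complex.norm_I, mul_one, Complex.norm_real, Real.norm_eq_abs, abs_of_pos ht0]
  have hw : (⟨z.re, z.im + t⟩ : ℂ) ∈ ball z δ := by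
    rw [mem_ball_iff_norm, hn]
    exact htδ
  obtain ⟨⟨h4, h5⟩, h6⟩ := hb _ hw
  have him : (⟨z.re, z.im + t⟩ : ℂ).im ∈ Ioo (y₀ l j) (y₁ l j) := by
    show z.im + t ∈ Ioo (y₀ l j) (y₁ l j)
    exact ⟨by linarith, by linarith⟩
  obtain ⟨x, hx, e', h7, h8⟩ := K12_reduce T l (hC l) (hs l j) (⟨z.re, z.im + t⟩ : ℂ) him k e h5
  have h7' : C l ⟨x, z.im + t⟩ = C l ⟨z.re, z.im + t⟩ := h7
  refine ⟨l, j, x, z.im + t, e', hx, him, h8, ?_, ?_⟩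
  · rw [h7', h6, hCz, add_sub_cancel_left, K01_norm, hn]
    exact htε
  · rw [h7']
    exact h4

end Pool.Agent.H52D
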