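import Pool.Agent.Lib.H52D.K06
import Pool.Agent.Lib.H52D.K09
import Pool.Agent.Lib.H52D.K10
import Pool.Agent.Lib.H52D.K11
import Pool.Agent.Lib.H52D.K14

/-! # K15 : the atlas (library H52D) -/

namespace Pool.Agent.H52D

open Complex Topology Filter Set Metric
open Pool.Agent.H52W (cdet)

variable {n N : ℕ}

/-- ATLAS, first form: finitely many strips; every germ `(p, k, e)` at a point `p` of `P`, not a vertex, is a germ of some
`C l` at a point over `A l`. -/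
theorem K15_cover (T : Table n N) [NeZero n] [NeZero N] (hA1 : T.A1) :
    ∃ (Ω : ZMod n → Set ℂ) (C : ZMod n → ℂ → ℂ) (m : ZMod n → ℕ) (y₀ y₁ X : ∀ l, Fin (m l) → ℝ),
      (∀ l, Cont T l (Ω l) (C l)) ∧ (∀ l j, Strip T l (Ω l) (C l) (y₀ l j) (y₁ l j) (X l j)) ∧
      (∀ l, ∀ y ∈ T.A l, (∃ j, y₀ l j < y ∧ y ≤ y₁ l j) ∧ ∃ j, y₀ l j ≤ y ∧ y < y₁ l j) ∧
      ∀ p ∈ T.P, p ∉ range T.v → ∀ (k : ZMod N) (e : Bool), ∃ l, ∃ z ∈ Ω l, C l z = p ∧ T.Is (C l) z k e := by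
  sorry

end Pool.Agent.H52D
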