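import Pool.Agent.Lib.H52D.K08

/-! # K19 : from leaves to lists of bounces, for (A1) (library H52D) -/

namespace Pool.Agent.H52D

open Complex Topology Filter Set Metric
open Pool.Agent.H52W (cdet)

variable {n N : ℕ}

/-- A billiard path from the vertex `i` to the vertex `j` with the `m` bounces `b 1, .., b m` in the open sides
`l 1, .., l m`, with the copies `c 0, .., c m`, without perpendicular hit; the leg `r` has the direction
`s (-1)^r κ (c r)`. -/
structure VPath (T : Table n N) (i j : ZMod n) (m : ℕ) (b : ℕ → ℂ) (l : ℕ → ZMod n) (c : ℕ → ZMod N) (s : ℝ) :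
    Prop where
  sign : s = 1 ∨ s = -1
  start : b 0 = T.v i
  stop : b (m + 1) = T.v j
  on_side : ∀ r, 1 ≤ r → r ≤ m → b r ∈ T.side (l r)
  leg : ∀ r, r ≤ m → openSegment ℝ (b r) (b (r + 1)) ⊆ interior T.P
  dir : ∀ r, r ≤ m → ∃ t : ℝ, 0 < t ∧ b (r + 1) - b r = ((t * (s * (-1) ^ r) : ℝ) : ℂ) * T.κ (c r)
  copy : ∀ r, 1 ≤ r → r ≤ m → c r = T.ρ (l r) (c (r - 1))
  not_perp : ∀ r, 1 ≤ r → r ≤ m → c (r - 1) ≠ T.δ (l r)

/-- The leaf is straight near the two vertices (`K08_straight`, `K08_straight_left`); on a compact interval in between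
there are finitely many bounces (compactness: near every `x` there is at most one); between two bounces the leaf is a
straight segment in the interior.  Note that `Lin k e 1 = ± κ k` and that a bounce changes `(k, e)` into `(ρ l k, !e)`
(`K08_RIs_unique`). -/
theorem K19_A1 (T : Table n N)
    (h : ∀ (i j : ZMod n) (m : ℕ) (b : ℕ → ℂ) (l : ℕ → ZMod n) (c : ℕ → ZMod N) (s : ℝ), ¬ VPath T i j m b l c s) :
    T.A1 := by
  sorry

end Pool.Agent.H52D
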