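import Pool.Agent.Lib.H52D.Base
import Pool.Agent.Lib.H34D.NumThy

/-! # K20 : the inner signs of a polygon (library H52D) -/

namespace Pool.Agent.H52D

open Complex Topology Filter Set Metric
open Pool.Agent.H52W (cdet)
open Pool.Agent.Lib.H42I (IsPolygon)

/-- the local structure at a point of an open side, with the sign `σ` -/
private def K20_loc {n : ℕ} (P : Set ℂ) (v : ZMod n → ℂ) (l : ZMod n) (σ : ℝ) (q : ℂ) : Prop :=
  ∃ r > 0, ∀ x ∈ ball q r,
    (x ∈ P ↔ 0 ≤ σ * cdet (v (l + 1) - v l) (x - v l)) ∧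
    (x ∈ interior P ↔ 0 < σ * cdet (v (l + 1) - v l) (x - v l))

private theorem K20_open {n : ℕ} (P : Set ℂ) (v : ZMod n → ℂ) (l : ZMod n) (σ : ℝ) :
    IsOpen {q | K20_loc P v l σ q} := by
  rw [Metric.isOpen_iff]
  rintro q ⟨r, hr, h⟩
  refine ⟨r, hr, fun q' hq' => ?_⟩
  rw [mem_ball] at hq'
  refine ⟨r - dist q' q, by linarith, fun x hx => h x ?_⟩
  rw [mem_ball] at hx ⊢
  have := dist_triangle x q' q
  linarith

private theorem K20_line {n : ℕ} (v : ZMod n → ℂ) (l : ZMod n) {w : ℂ}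
    (hw : w ∈ openSegment ℝ (v l) (v (l + 1))) (x : ℂ) :
    cdet (v (l + 1) - v l) (x - v l) = cdet (v (l + 1) - v l) (x - w) := by
  obtain ⟨a, b, _, _, hab, rfl⟩ := hw
  have ha : a = 1 - b := by linarith
  subst ha
  simp only [cdet, Complex.sub_re, Complex.sub_im, Complex.add_re, Complex.add_im, Complex.real_smul,
    Complex.mul_re, Complex.mul_im, Complex.ofReal_re, Complex.ofReal_im]
  ring

private theorem K20_local {n : ℕ} [NeZero n] (P : Set ℂ) (v : ZMod n → ℂ) (h : IsPolygon P v) (i : ZMod n) {w : ℂ}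
    (hw : w ∈ openSegment ℝ (v i) (v (i + 1))) : K20_loc P v i 1 w ∨ K20_loc P v i (-1) w := by
  have hS := H52W.simpleV_of_polygon h
  have hne := hS.ne_succ i
  have hother := hS.open_other hw
  have h2 : ∀ᶠ y in 𝓝 w, ∀ j, j ≠ i → y ∉ segment ℝ (v j) (v (j + 1)) := by
    rw [eventually_all]
    intro j
    by_cases hj : j = i
    · exact Eventually.of_forall fun y hj' => absurd hj hj'
    · have hcl : IsClosed (segment ℝ (v j) (v (j + 1))) := by
        rw [segment_eq_image]
        exact (isCompact_Icc.image (by fun_prop)).isClosed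
      filter_upwards [hcl.isOpen_compl.mem_nhds (hother j hj)] with y hy _
      exact hy
  obtain ⟨r, hr, hball⟩ := Metric.eventually_nhds_iff_ball.1 h2
  set d := v (i + 1) - v i with hd
  have hd0 : d ≠ 0 := sub_ne_zero.2 (Ne.symm hne)
  have hoff : ∀ σ : ℝ, ∀ y ∈ Metric.ball w r ∩ {y | 0 < σ * cdet d (y - w)}, y ∉ H52W.curve v := by
    rintro σ y ⟨hy, hpos⟩
    rw [H52W.not_mem_curve_iff]
    intro j hmem
    by_cases hj : j = i
    · subst hj
      have h3 := H52W.cdet_eq_zero_of_mem_segment _ _ _ hmem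
      have h4 := H52W.cdet_eq_zero_of_mem_segment _ _ _ (openSegment_subset_segment _ _ _ hw)
      have h5 : cdet d (y - w) = 0 := by
        rw [hd]
        simp only [cdet, Complex.sub_re, Complex.sub_im] at h3 h4 ⊢
        linear_combination h3 - h4
      have hpos' : 0 < σ * cdet d (y - w) := hpos
      rw [h5, mul_zero] at hpos'
      exact lt_irrefl _ hpos'
    · exact hball y hy j hj hmem
  have hconv := fun σ : ℝ => (H52W.bridge_convex_half w d r σ).isPreconnected
  have hwball : w ∈ Metric.ball w r := Metric.mem_ball_self hr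
  have hloc := H52W.inside_flip_local v i w (I * d) hw hother (hS.flip_dir i)
  have hb1 := (H52W.tendsto_add_dir w (I * d) 1).eventually (Metric.isOpen_ball.mem_nhds hwball)
  have hb2 := (H52W.tendsto_add_dir w (I * d) (-1)).eventually (Metric.isOpen_ball.mem_nhds hwball)
  have hpos : ∀ᶠ t : ℝ in 𝓝[>] 0, 0 < t := self_mem_nhdsWithin
  obtain ⟨t, ⟨⟨⟨_, _, hflip⟩, ht1⟩, ht2⟩, ht0⟩ := (((hloc.and hb1).and hb2).and hpos).exists
  have hn := Complex.normSq_pos.2 hd0
  have e1 : w + ((1 * t : ℝ) : ℂ) * (I * d) = w + (t : ℂ) * (I * d) := by push_cast; ring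
  have e2 : w + ((-1 * t : ℝ) : ℂ) * (I * d) = w - (t : ℂ) * (I * d) := by push_cast; ring
  rw [e1] at ht1
  rw [e2] at ht2
  have hp1 : w + (t : ℂ) * (I * d) ∈ Metric.ball w r ∩ {y | 0 < (1 : ℝ) * cdet d (y - w)} := by
    refine ⟨ht1, ?_⟩
    show 0 < (1 : ℝ) * cdet d (w + (t : ℂ) * (I * d) - w)
    rw [H52W.bridge_side_points w d hd0, one_mul]
    positivity
  have hp2 : w - (t : ℂ) * (I * d) ∈ Metric.ball w r ∩ {y | 0 < (-1 : ℝ) * cdet d (y - w)} := by
    refine ⟨ht2, ?_⟩
    show 0 < (-1 : ℝ) * cdet d (w - (t : ℂ) * (I * d) - w)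
    have e : w - (t : ℂ) * (I * d) = w + ((-t : ℝ) : ℂ) * (I * d) := by push_cast; ring
    rw [e, H52W.bridge_side_points w d hd0]
    nlinarith
  set x1 := w + (t : ℂ) * (I * d) with hx1
  set x2 := w - (t : ℂ) * (I * d) with hx2
  -- the half `σ` is inside, the other one is not
  have key : ∀ σ : ℝ, σ ≠ 0 →
      (∀ y ∈ Metric.ball w r ∩ {y | 0 < σ * cdet d (y - w)}, H52W.Inside v y) →
      (∀ y ∈ Metric.ball w r ∩ {y | 0 < (-σ) * cdet d (y - w)}, ¬ H52W.Inside v y) →
      K20_loc P v i σ w := by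
    intro σ hσ h5 h6
    refine ⟨r, hr, fun x hx => ?_⟩
    rw [← hd, K20_line v i hw x, ← hd]
    have hin : x ∈ interior P ↔ 0 < σ * cdet d (x - w) := by
      rw [H52W.mem_interior_iff_inside h]
      constructor
      · intro hxI
        by_contra hcon
        rcases (not_lt.1 hcon).lt_or_eq with hlt | heq
        · exact h6 x ⟨hx, (by show 0 < (-σ) * cdet d (x - w); linarith)⟩ hxI
        · have hz : cdet d (x - w) = 0 := (mul_eq_zero.1 heq).resolve_left hσ
          have hcl := H52W.bridge_mem_closure_half w d hd0 r (-σ) (neg_ne_zero.2 hσ) x hx hz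
          obtain ⟨z, hz1, hz2⟩ := mem_closure_iff.1 hcl (H52W.InS v) (H52W.isOpen_inside v) hxI
          exact h6 z hz2 hz1
      · intro hx2
        exact h5 x ⟨hx, hx2⟩
    refine ⟨?_, hin⟩
    rcases lt_trichotomy (σ * cdet d (x - w)) 0 with hlt | heq | hgt
    · have hx' : x ∈ Metric.ball w r ∩ {y | 0 < (-σ) * cdet d (y - w)} :=
        ⟨hx, by show 0 < (-σ) * cdet d (x - w); linarith⟩
      rw [H52W.mem_iff_inside h x (hoff (-σ) x hx')]
      exact ⟨fun h7 => absurd h7 (h6 x hx'), fun h7 => absurd hlt (not_lt.2 h7)⟩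
    · refine ⟨fun _ => heq.ge, fun _ => ?_⟩
      have hz : cdet d (x - w) = 0 := (mul_eq_zero.1 heq).resolve_left hσ
      have hcl := H52W.bridge_mem_closure_half w d hd0 r σ hσ x hx hz
      have hsub : Metric.ball w r ∩ {y | 0 < σ * cdet d (y - w)} ⊆ P := fun y hy =>
        interior_subset ((H52W.mem_interior_iff_inside h y).2 (h5 y hy))
      exact (h.compact.isClosed.closure_subset_iff.2 hsub) hcl
    · exact ⟨fun _ => hgt.le, fun _ => interior_subset (hin.2 hgt)⟩
  by_cases hI : H52W.Inside v x1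
  · left
    refine key 1 one_ne_zero ?_ ?_
    · intro y hy
      exact (H52W.inside_iff_of_isPreconnected v (hconv 1) (hoff 1) hp1 hy).1 hI
    · intro y hy hyI
      have h7 := (H52W.inside_iff_of_isPreconnected v (hconv (-1)) (hoff (-1)) hp2 hy).2 hyI
      exact (hflip.1 h7) hI
  · right
    have hI2 : H52W.Inside v x2 := hflip.2 hI
    refine key (-1) (by norm_num) ?_ ?_
    · intro y hy
      exact (H52W.inside_iff_of_isPreconnected v (hconv (-1)) (hoff (-1)) hp2 hy).1 hI2
    · intro y hy hyI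
      have hy' : y ∈ Metric.ball w r ∩ {y | 0 < (1 : ℝ) * cdet d (y - w)} := by
        refine ⟨hy.1, ?_⟩
        have := hy.2
        simpa using this
      exact hI ((H52W.inside_iff_of_isPreconnected v (hconv 1) (hoff 1) hp1 hy').2 hyI)

private theorem K20_excl {n : ℕ} (P : Set ℂ) (v : ZMod n → ℂ) (i : ZMod n) (hne : v i ≠ v (i + 1)) {w : ℂ}
    (hw : w ∈ openSegment ℝ (v i) (v (i + 1))) (h1 : K20_loc P v i 1 w) (h2 : K20_loc P v i (-1) w) : False := by
  obtain ⟨r, hr, h1⟩ := h1
  obtain ⟨r', hr', h2⟩ := h2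
  have hd0 : v (i + 1) - v i ≠ 0 := sub_ne_zero.2 (Ne.symm hne)
  have hn := Complex.normSq_pos.2 hd0
  have hb := (H52W.tendsto_add_dir w (I * (v (i + 1) - v i)) 1).eventually
    (Metric.ball_mem_nhds w (lt_min hr hr'))
  have hpos : ∀ᶠ t : ℝ in 𝓝[>] 0, 0 < t := self_mem_nhdsWithin
  obtain ⟨t, ht, ht0⟩ := (hb.and hpos).exists
  have e1 : w + ((1 * t : ℝ) : ℂ) * (I * (v (i + 1) - v i)) = w + (t : ℂ) * (I * (v (i + 1) - v i)) := by
    push_cast; ring
  rw [e1] at ht
  have h3 := (h1 _ (mem_ball.2 (ht.trans_le (min_le_left _ _)))).2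
  have h4 := (h2 _ (mem_ball.2 (ht.trans_le (min_le_right _ _)))).2
  rw [K20_line v i hw, H52W.bridge_side_points w _ hd0] at h3 h4
  have h5 := h3.2 (by rw [one_mul]; positivity)
  have h6 := h4.1 h5
  have : 0 < t * Complex.normSq (v (i + 1) - v i) := by positivity
  linarith

/-- Every polygon has inner signs as in `Table.inner`.  Near a point `q` of an open side exactly one of the two half discs
is inside (`H52W.inside_flip_local`, `mem_interior_iff_inside`, `SimpleV.side_nbhd`); the sign is locally constant on the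
open side, which is connected. -/
theorem K20_inner {n : ℕ} (P : Set ℂ) (v : ZMod n → ℂ) (h : IsPolygon P v) :
    ∃ sg : ZMod n → ℝ, (∀ l, sg l = 1 ∨ sg l = -1) ∧
      ∀ l, ∀ q ∈ openSegment ℝ (v l) (v (l + 1)), ∃ r > 0, ∀ x ∈ ball q r,
        (x ∈ P ↔ 0 ≤ sg l * cdet (v (l + 1) - v l) (x - v l)) ∧
        (x ∈ interior P ↔ 0 < sg l * cdet (v (l + 1) - v l) (x - v l)) := by
  have := H52W.neZero_of_polygon h
  have key : ∀ l, ∃ s : ℝ, (s = 1 ∨ s = -1) ∧ ∀ q ∈ openSegment ℝ (v l) (v (l + 1)), K20_loc P v l s q := by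
    intro l
    have hne := (H52W.simpleV_of_polygon h).ne_succ l
    have hpc : IsPreconnected (openSegment ℝ (v l) (v (l + 1))) := (convex_openSegment _ _).isPreconnected
    rcases (isPreconnected_iff_subset_of_disjoint.1 hpc) {q | K20_loc P v l 1 q} {q | K20_loc P v l (-1) q}
      (K20_open P v l 1) (K20_open P v l (-1)) (fun q hq => K20_local P v h l hq)
      (by
        ext q
        simp only [mem_inter_iff, mem_empty_iff_false, iff_false, not_and]
        intro hq h1 h2
        exact K20_excl P v l hne hq h1 h2) with h1 | h1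
    · exact ⟨1, Or.inl rfl, fun q hq => h1 hq⟩
    · exact ⟨-1, Or.inr rfl, fun q hq => h1 hq⟩
  choose sg h1 h2 using key
  exact ⟨sg, h1, fun l q hq => h2 l q hq⟩

private theorem K20_exp {N : ℕ} [NeZero N] (k : ZMod N) :
    Complex.exp (2 * Real.pi * I * (k.val : ℂ) / N) = ZMod.stdAddChar k := by
  have := ZMod.stdAddChar_coe (N := N) (k.val : ℤ)
  simpa using this.symm

/-- TABLE for an odd `N`: if every side is perpendicular to one of the `N` directions `c ζ^k`, these are the copies of a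
table, provided that two sides are perpendicular to different ones (`N` odd prime; `conn` is `H34D.refl_closed`). -/
theorem K20_table {n N : ℕ} (hN : N.Prime) (hodd : N ≠ 2) (P : Set ℂ) (v : ZMod n → ℂ) (h : IsPolygon P v) (c : ℂ)
    (hc : ‖c‖ = 1) (κ : ZMod N → ℂ)
    (hκ : ∀ k : ZMod N, κ k = c * Complex.exp (2 * Real.pi * I * (k.val : ℂ) / N)) (δ : ZMod n → ZMod N)
    (hδ : ∀ l, ∃ t : ℝ, v (l + 1) - v l = (t : ℂ) * (I * κ (δ l))) (hne : ∃ l l', δ l ≠ δ l') :
    ∃ T : Table n N, T.P = P ∧ T.v = v ∧ T.κ = κ ∧ T.δ = δ ∧ ∀ l k, T.ρ l k = 2 * δ l - k := by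
  have hNF : Fact N.Prime := ⟨hN⟩
  have hN0 : NeZero N := ⟨hN.ne_zero⟩
  obtain ⟨sg, hsg, hinner⟩ := K20_inner P v h
  have hn0 := H52W.neZero_of_polygon h
  have hκ' : ∀ k, κ k = c * ZMod.stdAddChar k := fun k => by rw [hκ, K20_exp]
  have hc0 : c ≠ 0 := by rw [← norm_pos_iff, hc]; exact one_pos
  have hchar : ∀ k : ZMod N, ‖(ZMod.stdAddChar k : ℂ)‖ = 1 := fun k => by
    rw [← K20_exp]
    have : (2 * Real.pi * I * (k.val : ℂ) / N : ℂ) = ((2 * Real.pi * k.val / N : ℝ) : ℂ) * I := by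
      push_cast; ring
    rw [this, Complex.norm_exp_ofReal_mul_I]
  have hnorm : ∀ k, ‖κ k‖ = 1 := fun k => by rw [hκ', norm_mul, hc, hchar, one_mul]
  have hoddN : Odd N := hN.odd_of_ne_two hodd
  have hpow : ∀ k : ZMod N, (ZMod.stdAddChar k : ℂ) ^ N = 1 := fun k => by
    rw [← AddChar.map_nsmul_eq_pow]
    simp
  have hconj : ∀ z : ℂ, ‖z‖ = 1 → (starRingEnd ℂ) z = z⁻¹ := fun z hz => by
    rw [Complex.inv_def, Complex.normSq_eq_norm_sq, hz]; simp
  -- the sides
  have hside : ∀ l, ∃ t : ℝ, t ≠ 0 ∧ v (l + 1) - v l = (t : ℂ) * (I * κ (δ l)) := by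
    intro l
    obtain ⟨t, ht⟩ := hδ l
    refine ⟨t, ?_, ht⟩
    rintro rfl
    have := (H52W.simpleV_of_polygon h).ne_succ l
    apply this
    have h1 : v (l + 1) - v l = 0 := by rw [ht]; simp
    exact (sub_eq_zero.1 h1).symm
  refine ⟨{
    P := P, v := v, sg := sg, κ := κ, ρ := fun l k => 2 * δ l - k, δ := δ, poly := h, hsg := hsg
    inner := hinner, norm := hnorm
    inj := ?_, ne_neg := ?_, rho := ?_, fix := ?_, transv := ?_, conn := ?_ }, rfl, rfl, rfl, rfl,
    fun l k => rfl⟩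
  · intro k k' hk
    rw [hκ', hκ'] at hk
    exact ZMod.injective_stdAddChar (mul_left_cancel₀ hc0 hk)
  · intro k k' hk
    rw [hκ', hκ', ← mul_neg] at hk
    have h1 := mul_left_cancel₀ hc0 hk
    have h2 := congrArg (fun z => z ^ N) h1
    simp only [hoddN.neg_pow, hpow] at h2
    norm_num at h2
  · intro l k
    obtain ⟨t, ht0, ht⟩ := hside l
    have ht0' : (t : ℂ) ≠ 0 := by exact_mod_cast ht0
    have hk0 : ∀ k, κ k ≠ 0 := fun k => by rw [← norm_pos_iff, hnorm]; exact one_pos
    rw [ht]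
    simp only [map_mul, Complex.conj_ofReal, Complex.conj_I]
    rw [hconj _ (hnorm (δ l)), hconj _ (hnorm k)]
    have e1 : κ (2 * δ l - k) * κ k = κ (δ l) * κ (δ l) := by
      rw [hκ', hκ', hκ']
      have : ZMod.stdAddChar (2 * δ l - k) * ZMod.stdAddChar k =
          (ZMod.stdAddChar (δ l) * ZMod.stdAddChar (δ l) : ℂ) := by
        rw [← AddChar.map_add_eq_mul, ← AddChar.map_add_eq_mul]
        congr 1
        ring
      linear_combination c * c * this
    have hI : (I : ℂ) ≠ 0 := Complex.I_ne_zero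
    have h1 := hk0 k
    have h2 := hk0 (δ l)
    field_simp
    linear_combination e1
  · intro l k
    exact H34D.rho_fix hN hodd (δ l) k
  · intro l k hz
    obtain ⟨t, ht0, ht⟩ := hside l
    rw [ht] at hz
    -- `κ k = κ (δ l) * s`
    set s : ℂ := ZMod.stdAddChar (k - δ l) with hs
    have e1 : κ k = κ (δ l) * s := by
      rw [hκ', hκ', hs, mul_assoc, ← AddChar.map_add_eq_mul]
      congr 2
      ring
    have e2 : cdet ((t : ℂ) * (I * κ (δ l))) (κ k) = -(t * s.re) := by
      have h3 : (κ (δ l)).re * (κ (δ l)).re + (κ (δ l)).im * (κ (δ l)).im = 1 := by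
        have := Complex.normSq_eq_norm_sq (κ (δ l))
        rw [hnorm, Complex.normSq_apply] at this
        linarith
      rw [e1]
      simp only [cdet, Complex.mul_re, Complex.mul_im, Complex.ofReal_re, Complex.ofReal_im, Complex.I_re,
        Complex.I_im]
      linear_combination (-(t * s.re)) * h3
    rw [e2] at hz
    have h4 : s.re = 0 := by
      rcases mul_eq_zero.1 (neg_eq_zero.1 hz) with h5 | h5
      · exact absurd h5 ht0
      · exact h5
    have h5 : s ^ 2 = -1 := by
      have h6 : s.re * s.re + s.im * s.im = 1 := by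
        have := Complex.normSq_eq_norm_sq s
        rw [hs, hchar, ← hs, Complex.normSq_apply] at this
        linarith
      apply Complex.ext
      · simp only [pow_two, Complex.mul_re, Complex.neg_re, Complex.one_re]
        rw [h4] at h6 ⊢
        linarith
      · simp only [pow_two, Complex.mul_im, Complex.neg_im, Complex.one_im, h4]
        ring
    have h7 : s ^ N = 1 := hpow _
    have h8 : (s ^ 2) ^ N = 1 := by rw [← pow_mul, mul_comm, pow_mul, h7, one_pow]
    rw [h5, hoddN.neg_one_pow] at h8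
    norm_num at h8
  · intro S hS hcl
    obtain ⟨k0, hk0⟩ := hS
    obtain ⟨l, l', hll⟩ := hne
    apply eq_univ_of_forall
    exact H34D.refl_closed hN hodd (δ l) (δ l') hll S (hcl l) (hcl l') k0 hk0

end Pool.Agent.H52D
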